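import Pool.Agent.H49.VK.Recu
import Pool.Agent.H43.VM.Closed

/-!
# [H49 VK CLOSED] Vinogradov's mean value theorem with a constant `exp(O(k^2 (l^2 + k^2)))`

`J k (k l) N <= 2^(12 k^2 (l^2 + k^2)) N^(lamb k l)` for `k >= 2`, `l, N >= 1`.

PROOF. As `Pool.Agent.H43.VM.vmvt`. `N < k^(12k)`: `J <= N^(lamb) N^(k^2) <= N^(lamb) k^(12 k^3) <= N^(lamb) 2^(12 k^4)`
(`k <= 2^k`, `closed_up`). `N >= k^(12k)`: `recu` with `32` in place of `2^(k^3+1)`; the step costs at most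
`2^(12 k^2 (2l+1))`.
-/

set_option autoImplicit false

namespace Pool.Agent.H49.VK

open Finset Pool.Agent.H43.VM

theorem closed_small' (k l N : ℕ) (hk : 2 ≤ k) (hN : 1 ≤ N) (hNk : N ≤ k ^ (12 * k)) :
    (J k (k * (l + 1)) N : ℝ) ≤ 2 ^ (12 * k ^ 2 * ((l + 1) ^ 2 + k ^ 2)) * (N : ℝ) ^ lamb k (l + 1) := by
  have hN' : (1 : ℝ) ≤ N := by exact_mod_cast hN
  have hN0 : (0 : ℝ) < N := by linarith
  obtain ⟨-, h2⟩ := closed_up k (l + 1) hk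
  refine (closed_triv _ _ _).trans ?_
  have h3 : (N : ℝ) ^ (2 * (k * (l + 1))) =
      (N : ℝ) ^ (2 * (k : ℝ) * ((l + 1 : ℕ) : ℝ) - lamb k (l + 1)) * (N : ℝ) ^ lamb k (l + 1) := by
    rw [← Real.rpow_add hN0, ← Real.rpow_natCast]
    congr 1
    push_cast
    ring
  rw [h3]
  refine mul_le_mul_of_nonneg_right ?_ (Real.rpow_nonneg hN0.le _)
  calc (N : ℝ) ^ (2 * (k : ℝ) * ((l + 1 : ℕ) : ℝ) - lamb k (l + 1))
      ≤ (N : ℝ) ^ ((k : ℝ) ^ 2) := Real.rpow_le_rpow_of_exponent_le hN' h2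
    _ = (N : ℝ) ^ (k ^ 2) := by
        have h4 : ((k : ℝ) ^ 2) = ((k ^ 2 : ℕ) : ℝ) := by push_cast; ring
        rw [h4, Real.rpow_natCast]
    _ ≤ ((k : ℝ) ^ (12 * k)) ^ (k ^ 2) := by
        apply pow_le_pow_left₀ hN0.le
        exact_mod_cast hNk
    _ ≤ ((2 ^ k) ^ (12 * k)) ^ (k ^ 2) := by
        have := closed_two k
        gcongr
    _ = 2 ^ (k * (12 * k) * k ^ 2) := by
        rw [← pow_mul, ← pow_mul]
        congr 1
        ring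
    _ ≤ 2 ^ (12 * k ^ 2 * ((l + 1) ^ 2 + k ^ 2)) := by
        apply pow_le_pow_right₀ (by norm_num)
        have h5 : k * (12 * k) * k ^ 2 = 12 * k ^ 2 * k ^ 2 := by ring
        rw [h5]
        exact Nat.mul_le_mul_left _ (Nat.le_add_left _ _)

theorem arith1 (k l : ℕ) (hk : 2 ≤ k) :
    2 + k * (2 * (k * l + k)) ≤ 12 * k ^ 2 * ((l + 1) ^ 2 + k ^ 2) := by
  have h1 : 4 ≤ k ^ 2 := by nlinarith
  have h3 : k * (2 * (k * l + k)) = 2 * (k ^ 2 * (l + 1)) := by ring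
  have h4 : k ^ 2 * (l + 1) ≤ k ^ 2 * (l + 1) ^ 2 := by
    apply Nat.mul_le_mul_left
    nlinarith
  have h5 : 12 * k ^ 2 * ((l + 1) ^ 2 + k ^ 2) = 12 * (k ^ 2 * (l + 1) ^ 2) + 12 * (k ^ 2 * k ^ 2) := by
    ring
  have h6 : k ^ 2 * 4 ≤ k ^ 2 * k ^ 2 := Nat.mul_le_mul_left _ h1
  rw [h3, h5]
  omega

theorem arith2 (k l : ℕ) (hk : 2 ≤ k) :
    2 + (k * (l + 1)) * (2 * k) + 3 * k + 5 * (2 * (k * l) + k * (k - 1) / 2) + k ^ 2 +
      12 * k ^ 2 * (l ^ 2 + k ^ 2) + 2 * (k * l) ≤ 12 * k ^ 2 * ((l + 1) ^ 2 + k ^ 2) := by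
  have h1 : 4 ≤ k ^ 2 := by nlinarith
  have h2 : 2 * k ≤ k ^ 2 := by nlinarith
  have h3 : 2 * (k * l) ≤ k ^ 2 * l := by
    have := Nat.mul_le_mul_right l h2
    calc 2 * (k * l) = 2 * k * l := by ring
      _ ≤ k ^ 2 * l := this
  have e4 : k * (k - 1) / 2 ≤ k ^ 2 := by
    calc k * (k - 1) / 2 ≤ k * (k - 1) := Nat.div_le_self _ _
      _ ≤ k * k := Nat.mul_le_mul_left _ (Nat.sub_le _ _)
      _ = k ^ 2 := by ring
  have e11 : (k * (l + 1)) * (2 * k) = 2 * (k ^ 2 * l) + 2 * k ^ 2 := by ring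
  have e12 : 12 * k ^ 2 * ((l + 1) ^ 2 + k ^ 2) =
      12 * k ^ 2 * (l ^ 2 + k ^ 2) + 24 * (k ^ 2 * l) + 12 * k ^ 2 := by ring
  rw [e12, e11]
  omega

theorem closed_step' (k l N : ℕ) (hk : 2 ≤ k) (hl : 1 ≤ l) (hN : k ^ (12 * k) ≤ N)
    (ih : ∀ M : ℕ, 1 ≤ M → (J k (k * l) M : ℝ) ≤ 2 ^ (12 * k ^ 2 * (l ^ 2 + k ^ 2)) * (M : ℝ) ^ lamb k l) :
    (J k (k * (l + 1)) N : ℝ) ≤ 2 ^ (12 * k ^ 2 * ((l + 1) ^ 2 + k ^ 2)) * (N : ℝ) ^ lamb k (l + 1) := by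
  have hN1 : 1 ≤ N := le_trans (Nat.one_le_pow _ _ (by omega)) hN
  have hN' : (1 : ℝ) ≤ N := by exact_mod_cast hN1
  have hN0 : (0 : ℝ) < N := by linarith
  have hk' : (2 : ℝ) ≤ k := by exact_mod_cast hk
  have hl' : (1 : ℝ) ≤ l := by exact_mod_cast hl
  have hlow := closed_low k l hk hl
  have hlam : 0 ≤ lamb k l := by
    have : (0 : ℝ) ≤ (k : ℝ) * l := by positivity
    linarith
  have hrec := Pool.Agent.H49.VK.recu k (k * l) N hk (by nlinarith) hN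
    (2 ^ (12 * k ^ 2 * (l ^ 2 + k ^ 2))) (lamb k l) (by positivity) hlam ih
  have e0 : k * (l + 1) = k * l + k := by ring
  rw [e0]
  refine hrec.trans ?_
  set L := lamb k (l + 1) with hL
  set X := 12 * k ^ 2 * ((l + 1) ^ 2 + k ^ 2) with hX
  have hNL : 0 < (N : ℝ) ^ L := Real.rpow_pos_of_pos hN0 _
  -- first term
  have t1 : 2 * (2 * ((k : ℝ) ^ (k * l + k) * (N : ℝ) ^ (k - 1)) ^ 2) ≤ 2 ^ X * (N : ℝ) ^ L := by
    have a1 : ((N : ℝ) ^ (k - 1)) ^ 2 ≤ (N : ℝ) ^ L := by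
      rw [← pow_mul, ← Real.rpow_natCast]
      apply Real.rpow_le_rpow_of_exponent_le hN'
      have h1 := closed_low k (l + 1) hk (by omega)
      have h2 : (((k - 1) * 2 : ℕ) : ℝ) = ((k : ℝ) - 1) * 2 := by
        rw [Nat.cast_mul, Nat.cast_sub (by omega)]
        norm_num
      rw [h2]
      push_cast at h1
      nlinarith
    have a2 : ((k : ℝ) ^ (k * l + k)) ^ 2 ≤ 2 ^ (k * (2 * (k * l + k))) := by
      have h1 := closed_two k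
      calc ((k : ℝ) ^ (k * l + k)) ^ 2 ≤ (((2 : ℝ) ^ k) ^ (k * l + k)) ^ 2 := by gcongr
        _ = 2 ^ (k * (2 * (k * l + k))) := by
          rw [← pow_mul, ← pow_mul]
          congr 1
          ring
    calc 2 * (2 * ((k : ℝ) ^ (k * l + k) * (N : ℝ) ^ (k - 1)) ^ 2)
        = 2 ^ 2 * ((k : ℝ) ^ (k * l + k)) ^ 2 * ((N : ℝ) ^ (k - 1)) ^ 2 := by ring
      _ ≤ 2 ^ 2 * 2 ^ (k * (2 * (k * l + k))) * (N : ℝ) ^ L := by gcongr
      _ = 2 ^ (2 + k * (2 * (k * l + k))) * (N : ℝ) ^ L := by rw [pow_add]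
      _ ≤ 2 ^ X * (N : ℝ) ^ L := by
        refine mul_le_mul_of_nonneg_right ?_ hNL.le
        exact pow_le_pow_right₀ (by norm_num) (arith1 k l hk)
  -- second term
  have t2 : 2 * (2 * ((k * l + k : ℕ) : ℝ) ^ (2 * k) * ((k : ℝ) ^ 3 *
        ((32 * (N : ℝ) ^ (1 / (k : ℝ))) ^ (2 * (k * l) + k * (k - 1) / 2) *
          ((N : ℝ) ^ k * (k.factorial : ℝ) * (2 ^ (12 * k ^ 2 * (l ^ 2 + k ^ 2)) *
            (2 * (N : ℝ) ^ (1 - 1 / (k : ℝ))) ^ lamb k l))))) ≤ 2 ^ X * (N : ℝ) ^ L := by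
    set m := 2 * (k * l) + k * (k - 1) / 2 with hm
    have b1 : (2 * (N : ℝ) ^ (1 - 1 / (k : ℝ))) ^ lamb k l =
        2 ^ lamb k l * (N : ℝ) ^ ((1 - 1 / (k : ℝ)) * lamb k l) := by
      rw [Real.mul_rpow (by norm_num) (Real.rpow_nonneg hN0.le _), ← Real.rpow_mul hN0.le]
    have b2 : (32 * (N : ℝ) ^ (1 / (k : ℝ))) ^ m =
        2 ^ (5 * m) * (N : ℝ) ^ (1 / (k : ℝ) * (m : ℝ)) := by
      rw [mul_pow, pow_mul, ← Real.rpow_natCast ((N : ℝ) ^ (1 / (k : ℝ))), ← Real.rpow_mul hN0.le]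
      norm_num
    have b3 : (N : ℝ) ^ (1 / (k : ℝ) * (m : ℝ)) * (N : ℝ) ^ k *
        (N : ℝ) ^ ((1 - 1 / (k : ℝ)) * lamb k l) = (N : ℝ) ^ L := by
      rw [← Real.rpow_natCast (N : ℝ) k, ← Real.rpow_add hN0, ← Real.rpow_add hN0, hm,
        closed_exp k l hk hl]
    have b4 : (2 : ℝ) ^ lamb k l ≤ 2 ^ (2 * (k * l)) := by
      rw [← Real.rpow_natCast]
      apply Real.rpow_le_rpow_of_exponent_le (by norm_num)
      have := (closed_up k l hk).1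
      push_cast
      linarith
    have b5 : ((k * l + k : ℕ) : ℝ) ^ (2 * k) ≤ 2 ^ ((k * (l + 1)) * (2 * k)) := by
      rw [pow_mul 2 (k * (l + 1)) (2 * k), e0]
      exact pow_le_pow_left₀ (Nat.cast_nonneg _) (closed_two _) _
    have b6 : (k : ℝ) ^ 3 ≤ 2 ^ (3 * k) := by
      rw [mul_comm 3 k, pow_mul]
      exact pow_le_pow_left₀ (Nat.cast_nonneg _) (closed_two _) _
    have b7 := closed_fact k
    rw [b1, b2]
    calc 2 * (2 * ((k * l + k : ℕ) : ℝ) ^ (2 * k) * ((k : ℝ) ^ 3 *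
          ((2 ^ (5 * m) * (N : ℝ) ^ (1 / (k : ℝ) * (m : ℝ))) *
            ((N : ℝ) ^ k * (k.factorial : ℝ) * (2 ^ (12 * k ^ 2 * (l ^ 2 + k ^ 2)) *
              (2 ^ lamb k l * (N : ℝ) ^ ((1 - 1 / (k : ℝ)) * lamb k l)))))))
        = (2 ^ 2 * ((k * l + k : ℕ) : ℝ) ^ (2 * k) * (k : ℝ) ^ 3 * 2 ^ (5 * m) *
          (k.factorial : ℝ) * 2 ^ (12 * k ^ 2 * (l ^ 2 + k ^ 2)) * 2 ^ lamb k l) *
          ((N : ℝ) ^ (1 / (k : ℝ) * (m : ℝ)) * (N : ℝ) ^ k *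
            (N : ℝ) ^ ((1 - 1 / (k : ℝ)) * lamb k l)) := by ring
      _ ≤ (2 ^ 2 * 2 ^ ((k * (l + 1)) * (2 * k)) * 2 ^ (3 * k) * 2 ^ (5 * m) *
          2 ^ (k ^ 2) * 2 ^ (12 * k ^ 2 * (l ^ 2 + k ^ 2)) * 2 ^ (2 * (k * l))) * (N : ℝ) ^ L := by
          rw [b3]
          gcongr
      _ = 2 ^ (2 + (k * (l + 1)) * (2 * k) + 3 * k + 5 * m + k ^ 2 +
          12 * k ^ 2 * (l ^ 2 + k ^ 2) + 2 * (k * l)) * (N : ℝ) ^ L := by
          rw [pow_add, pow_add, pow_add, pow_add, pow_add, pow_add]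
      _ ≤ 2 ^ X * (N : ℝ) ^ L := by
          refine mul_le_mul_of_nonneg_right ?_ hNL.le
          exact pow_le_pow_right₀ (by norm_num) (arith2 k l hk)
  linarith

theorem vmvt (k l N : ℕ) (hk : 2 ≤ k) (hl : 1 ≤ l) (hN : 1 ≤ N) :
    (J k (k * l) N : ℝ) ≤ 2 ^ (12 * k ^ 2 * (l ^ 2 + k ^ 2)) * (N : ℝ) ^ lamb k l := by
  induction l, hl using Nat.le_induction generalizing N with
  | base =>
    have h1 : (J k (k * 1) N : ℝ) ≤ (k.factorial : ℝ) * (N : ℝ) ^ k := by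
      rw [mul_one]
      exact_mod_cast base k N
    have h2 : lamb k 1 = k := by
      unfold lamb
      simp
      ring
    rw [h2, Real.rpow_natCast]
    refine h1.trans (mul_le_mul_of_nonneg_right ?_ (by positivity))
    refine (closed_fact k).trans (pow_le_pow_right₀ (by norm_num) ?_)
    have h3 : k ^ 2 * 1 ≤ k ^ 2 * (12 * (1 ^ 2 + k ^ 2)) := Nat.mul_le_mul_left _ (by omega)
    calc k ^ 2 = k ^ 2 * 1 := (mul_one _).symm
      _ ≤ k ^ 2 * (12 * (1 ^ 2 + k ^ 2)) := h3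
      _ = 12 * k ^ 2 * (1 ^ 2 + k ^ 2) := by ring
  | succ l hl ih =>
    rcases Nat.lt_or_ge N (k ^ (12 * k)) with h | h
    · exact closed_small' k l N hk hN h.le
    · exact closed_step' k l N hk hl h (fun M hM => ih M hM)

end Pool.Agent.H49.VK
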