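import Pool.Agent.H49.BT.Defs

/-!
# [H49 VK] MP_31d0eb_nt: the improved Brun-Titchmarsh theorem in the full Vinogradov-Korobov range

`Pr`, `Recu`, `Closed`: Vinogradov's mean value theorem with the constant `2^(12 k^2 (l^2 + k^2))` (primes of the size
`N^(1/k)` from Chebyshev's bounds). `Wbk`, `Exk`: bound of `∑ e(Y/a)` with an absolute constant. `Tbk`, `NumO`, `NumA`, `NumB`,
`NumC`, `Fin`: as in `Pool/Agent/H49/BT`, for all `H` with `log H ≥ C1 (log x)^(2/3) (log log x)^(1/3)`, `H ≤ x^(1/2)`.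
-/

set_option autoImplicit false

namespace Pool.Agent.H49.VK

open Finset

/-- Vinogradov's bound with absolute constants `c`, `K` -/
def ExpK (c K : ℝ) : Prop := ∀ (A A' : ℕ) (Y κ : ℝ), 1 ≤ A → A' ≤ 2 * A → 2 ≤ κ →
    (A : ℝ) ^ 2 ≤ Y → Y ≤ (A : ℝ) ^ κ →
    ‖∑ a ∈ Ioc A A', H24.AB.ee (Y / (a : ℝ))‖ ≤
      K * (1 + Real.log A) * (A : ℝ) ^ (1 - c / κ ^ 2)

/-- the range of `H` -/
def Rnk (C1 x H : ℝ) : Prop :=
  Real.exp (C1 * (Real.log x) ^ (2 / 3 : ℝ) * (Real.log (Real.log x)) ^ (1 / 3 : ℝ)) ≤ H ∧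
    H ≤ x ^ (1 / 2 : ℝ)

end Pool.Agent.H49.VK
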