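import Pool.Agent.H1.BT.WBg
import Pool.Agent.H49.VK.Closed

/-!
# [H49 VK WBK] The bound for `W` with an absolute constant

There are `K, c > 0` such that for all `k >= 2`, `N >= 2`, `κ` with `1/2 <= κ`, `k/6 <= κ <= k/3`, `t = N^κ`, and all `α` with
`t/(2πk(3N)^(j+1)) <= |α_j| <= t/(2 N^(j+1))` for all `j < k`, and `A = ⌊N^(1/3)⌋`:
`‖W k A α‖ <= A^2 K (1 + log N) N^(-c/k^2)`.

PROOF. As `Pool.Agent.H1.BT.wbg`, with the mean value theorem of `Closed` (constant `2^(O(k^4))` for `l = 6k+1`, the root is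
taken of order `4 s^2 >= 144 k^4`).
-/

set_option autoImplicit false

namespace Pool.Agent.H49.VK

open Finset Pool.Agent.H43.ZS Pool.Agent.H1.BT

theorem wbk : ∃ K c : ℝ, 0 < K ∧ 0 < c ∧ ∀ (k N : ℕ) (κ : ℝ) (α : Fin k → ℝ), 2 ≤ k → 2 ≤ N →
    1 / 2 ≤ κ → (k : ℝ) / 6 ≤ κ → κ ≤ (k : ℝ) / 3 →
    (∀ j : Fin k, (N : ℝ) ^ κ / (2 * Real.pi * k * (3 * (N : ℝ)) ^ ((j : ℕ) + 1)) ≤ |α j|) →
    (∀ j : Fin k, |α j| ≤ (N : ℝ) ^ κ / (2 * (N : ℝ) ^ ((j : ℕ) + 1))) →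
    ‖W k ⌊(N : ℝ) ^ ((1 : ℝ) / 3)⌋₊ α‖ ≤ (⌊(N : ℝ) ^ ((1 : ℝ) / 3)⌋₊ : ℝ) ^ 2 *
      K * (1 + Real.log N) * (N : ℝ) ^ (-(c / (k : ℝ) ^ 2)) := by
  refine ⟨Real.exp 7, 1 / 141120, Real.exp_pos _, by norm_num, ?_⟩
  intro k N κ α hk hN hκ3 hκ4 hκ2 hlo hhi
  obtain ⟨hA, hA1, hA2⟩ := wb_A N hN
  set A : ℕ := ⌊(N : ℝ) ^ ((1 : ℝ) / 3)⌋₊ with hAdef
  have hN' : (2 : ℝ) ≤ N := by exact_mod_cast hN
  have hN0 : (0 : ℝ) < N := by linarith
  have hk' : (2 : ℝ) ≤ k := by exact_mod_cast hk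
  have hA' : (1 : ℝ) ≤ A := by exact_mod_cast hA
  set L := Real.log N with hL
  have hL0 : 0 < L := Real.log_pos (by linarith)
  have hNL : (N : ℝ) = Real.exp L := (Real.exp_log hN0).symm
  -- the exponent
  have htκ : (N : ℝ) ^ κ = Real.exp (κ * L) := by
    rw [Real.rpow_def_of_pos hN0, ← hL, mul_comm]
  -- parameters
  set l : ℕ := 6 * k + 1 with hl
  set s : ℕ := k * l with hs
  have hs1 : 1 ≤ s := Nat.one_le_iff_ne_zero.2 (by positivity)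
  have hsr : (s : ℝ) = k * (6 * k + 1) := by rw [hs, hl]; push_cast; ring
  have hlr : (l : ℝ) = 6 * k + 1 := by rw [hl]; push_cast; ring
  have hs7 : (s : ℝ) ≤ 7 * (k : ℝ) ^ 2 := by rw [hsr]; nlinarith
  have hs6 : 6 * (k : ℝ) ^ 2 ≤ s := by rw [hsr]; nlinarith
  have hs0 : (0 : ℝ) < s := by exact_mod_cast hs1
  have hdbl := dbl k s A (by omega) hs1 hA α
  have hJ := Pool.Agent.H49.VK.vmvt k l A hk (by omega) hA
  set a := Real.log (A : ℝ) with ha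
  have ha0 : 0 ≤ a := Real.log_nonneg hA'
  have hAe : (A : ℝ) = Real.exp a := (Real.exp_log (by linarith)).symm
  set lam := Pool.Agent.H43.VM.lamb k l with hlam
  set B : ℝ := 9 * (s : ℝ) ^ 2 * (3840 * Real.pi * k * 12 ^ k * (1 + s + k * L)) with hB
  have hBpos : 0 < B := by
    rw [hB]
    have := Real.pi_pos
    positivity
  set b := Real.log B with hb
  have hBe : B = Real.exp b := (Real.exp_log hBpos).symm
  have hbb : b ≤ 19 * k + Real.log (1 + L) := wb_const k hk s hs0 hs7 L hL0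
  set ev : Fin k → ℝ := fun j =>
    if (6 / 5 * κ ≤ ((j : ℕ) : ℝ) + 1 ∧ ((j : ℕ) : ℝ) + 1 ≤ 12 / 5 * κ) then 1 else 0 with hev
  have hfac : ∀ j : Fin k, U (α j) (s * A ^ ((j : ℕ) + 1)) ≤
      Real.exp (b + 2 * (((j : ℕ) : ℝ) + 1) * a - κ * L / 5 * ev j) := by
    intro j
    refine (wbg_fac k N _ α hN κ htκ hκ3 hlo hhi s A hs1 hA hA1 hA2 j).trans
      (le_of_eq ?_)
    rw [← hL, ← hB, hBe, hAe, ← Real.exp_nat_mul, hev]
    simp only
    split_ifs with h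
    · rw [← Real.exp_add, ← Real.exp_add]
      congr 1
      push_cast
      ring
    · rw [mul_one, ← Real.exp_add]
      congr 1
      push_cast
      ring
  have hU0 : ∀ j : Fin k, 0 ≤ U (α j) (s * A ^ ((j : ℕ) + 1)) := by
    intro j
    unfold U
    exact Finset.sum_nonneg fun _ _ => norm_nonneg _
  have hprod : ∏ j : Fin k, U (α j) (s * A ^ ((j : ℕ) + 1)) ≤
      Real.exp (∑ j : Fin k, (b + 2 * (((j : ℕ) : ℝ) + 1) * a - κ * L / 5 * ev j)) := by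
    rw [Real.exp_sum]
    exact Finset.prod_le_prod (fun j _ => hU0 j) (fun j _ => hfac j)
  have hsum : ∑ j : Fin k, (b + 2 * (((j : ℕ) : ℝ) + 1) * a - κ * L / 5 * ev j) ≤
      k * b + (k : ℝ) * (k + 1) * a - 2 / 25 * κ ^ 2 * L := by
    rw [Finset.sum_sub_distrib, Finset.sum_add_distrib, Finset.sum_const, Finset.card_univ,
      Fintype.card_fin, nsmul_eq_mul, ← Finset.sum_mul, ← Finset.mul_sum, ← Finset.mul_sum]
    have e1 : ∑ j : Fin k, (((j : ℕ) : ℝ) + 1) = (k : ℝ) * (k + 1) / 2 := by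
      rw [Fin.sum_univ_eq_sum_range (fun j => (j : ℝ) + 1) k]
      clear * -
      induction k with
      | zero => simp
      | succ n ih => rw [Finset.sum_range_succ, ih]; push_cast; ring
    have e2 : 2 / 5 * κ ≤ ∑ j : Fin k, ev j := by
      refine (wb_card κ k hκ3 hκ2).trans (le_of_eq ?_)
      rw [hev, Finset.sum_ite, Finset.sum_const_zero, add_zero, Finset.sum_const, nsmul_eq_mul,
        mul_one]
    rw [e1]
    have e3 : κ * L / 5 * (2 / 5 * κ) ≤ κ * L / 5 * ∑ j : Fin k, ev j :=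
      mul_le_mul_of_nonneg_left e2 (by positivity)
    linarith
  have hJ2 : (Pool.Agent.H43.VM.J k s A : ℝ) ^ 2 ≤
      Real.exp (24 * (k : ℝ) ^ 2 * ((l : ℝ) ^ 2 + (k : ℝ) ^ 2) * Real.log 2 + 2 * lam * a) := by
    have e1 : (Pool.Agent.H43.VM.J k s A : ℝ) ≤
        Real.exp (12 * (k : ℝ) ^ 2 * ((l : ℝ) ^ 2 + (k : ℝ) ^ 2) * Real.log 2 + lam * a) := by
      refine hJ.trans (le_of_eq ?_)
      rw [Real.exp_add]
      congr 1
      · rw [← Real.rpow_natCast, Real.rpow_def_of_pos (by norm_num)]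
        congr 1
        push_cast
        ring
      · rw [Real.rpow_def_of_pos (by linarith), mul_comm]
    have e2 := pow_le_pow_left₀ (Nat.cast_nonneg _) e1 2
    rw [← Real.exp_nat_mul] at e2
    refine e2.trans (le_of_eq ?_)
    congr 1
    push_cast
    ring
  have hA8 : (A : ℝ) ^ (8 * s ^ 2 - 4 * s) = Real.exp ((8 * (s : ℝ) ^ 2 - 4 * s) * a) := by
    rw [hAe, ← Real.exp_nat_mul]
    congr 1
    rw [Nat.cast_sub (by nlinarith)]
    push_cast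
    ring
  set δ : ℝ := (k : ℝ) * (k - 1) / 2 * (1 - 1 / (k : ℝ)) ^ (6 * k) with hδ
  have hδ1 : δ ≤ (k : ℝ) ^ 2 / 800 := wb_delta k hk
  have hlam2 : 2 * lam = 4 * s - (k : ℝ) * (k + 1) + 2 * δ := by
    rw [hlam, Pool.Agent.H43.VM.lamb, hδ, hsr, hlr]
    have : l - 1 = 6 * k := by omega
    rw [this]
    ring
  have hW : ‖W k A α‖ ^ (4 * s ^ 2) ≤
      Real.exp (8 * (s : ℝ) ^ 2 * a + 24 * (k : ℝ) ^ 2 * ((l : ℝ) ^ 2 + (k : ℝ) ^ 2) * Real.log 2 + k * b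
        - (k : ℝ) ^ 2 / 720 * L) := by
    refine hdbl.trans ?_
    have e1 : (A : ℝ) ^ (8 * s ^ 2 - 4 * s) * (Pool.Agent.H43.VM.J k s A : ℝ) ^ 2 *
        ∏ j : Fin k, U (α j) (s * A ^ ((j : ℕ) + 1)) ≤
        Real.exp ((8 * (s : ℝ) ^ 2 - 4 * s) * a) *
          Real.exp (24 * (k : ℝ) ^ 2 * ((l : ℝ) ^ 2 + (k : ℝ) ^ 2) * Real.log 2 + 2 * lam * a) *
          Real.exp (k * b + (k : ℝ) * (k + 1) * a - 2 / 25 * κ ^ 2 * L) := by
      rw [hA8]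
      refine mul_le_mul (mul_le_mul_of_nonneg_left hJ2 (Real.exp_pos _).le)
        (hprod.trans (Real.exp_le_exp.2 hsum)) (Finset.prod_nonneg fun j _ => hU0 j) (by positivity)
    refine e1.trans ?_
    rw [← Real.exp_add, ← Real.exp_add]
    apply Real.exp_le_exp.2
    rw [hlam2]
    have e2 : 2 * δ * a ≤ (k : ℝ) ^ 2 / 1200 * L := by
      have e3 : 2 * δ * a ≤ 2 * ((k : ℝ) ^ 2 / 800) * a :=
        mul_le_mul_of_nonneg_right (by linarith) ha0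
      have e4 : 2 * ((k : ℝ) ^ 2 / 800) * a ≤ 2 * ((k : ℝ) ^ 2 / 800) * (L / 3) :=
        mul_le_mul_of_nonneg_left hA1 (by positivity)
      linarith
    have e5 : (k : ℝ) ^ 2 / 450 * L ≤ 2 / 25 * κ ^ 2 * L := by
      apply mul_le_mul_of_nonneg_right _ hL0.le
      have := mul_self_le_mul_self (by positivity) hκ4
      linarith
    linarith
  have hn1 : 1 ≤ 4 * s ^ 2 := by
    have : 0 < s ^ 2 := by positivity
    omega
  have hroot := wb_root _ _ _ hn1 hW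
  refine hroot.trans ?_
  have hfinal : (A : ℝ) ^ 2 * Real.exp 7 * (1 + L) *
      (N : ℝ) ^ (-(1 / 141120 / (k : ℝ) ^ 2)) =
      Real.exp (2 * a + 7 + Real.log (1 + L) - 1 / 141120 / (k : ℝ) ^ 2 * L) := by
    rw [sub_eq_add_neg, Real.exp_add, Real.exp_add, Real.exp_add, Real.exp_log (by linarith),
      Real.rpow_def_of_pos hN0, hAe, ← Real.exp_nat_mul, ← hL]
    congr 2
    ring
  rw [hfinal]
  apply Real.exp_le_exp.2
  have hs2 : (0 : ℝ) < 4 * (s : ℝ) ^ 2 := by positivity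
  have hcast : ((4 * s ^ 2 : ℕ) : ℝ) = 4 * (s : ℝ) ^ 2 := by push_cast; ring
  rw [hcast, div_le_iff₀ hs2]
  have hlog2 : Real.log 2 ≤ 0.7 := Real.log_two_lt_d9.le.trans (by norm_num)
  have hlogL : 0 ≤ Real.log (1 + L) := Real.log_nonneg (by linarith)
  have f1 : 24 * (k : ℝ) ^ 2 * ((l : ℝ) ^ 2 + (k : ℝ) ^ 2) * Real.log 2 ≤ 6 * (4 * (s : ℝ) ^ 2) := by
    have g0 : (k : ℝ) ≤ l := by rw [hlr]; linarith
    have g1 : (k : ℝ) ^ 2 ≤ (l : ℝ) ^ 2 / 36 := by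
      have g2 : (6 * (k : ℝ)) ^ 2 ≤ (l : ℝ) ^ 2 := by
        apply pow_le_pow_left₀ (by positivity)
        rw [hlr]; linarith
      linarith
    have g3 : (s : ℝ) ^ 2 = (k : ℝ) ^ 2 * (l : ℝ) ^ 2 := by rw [hsr, hlr]; ring
    calc 24 * (k : ℝ) ^ 2 * ((l : ℝ) ^ 2 + (k : ℝ) ^ 2) * Real.log 2
        ≤ 24 * (k : ℝ) ^ 2 * ((l : ℝ) ^ 2 + (l : ℝ) ^ 2 / 36) * 0.7 := by gcongr
      _ = (24 * 37 / 36 * 0.7) * ((k : ℝ) ^ 2 * (l : ℝ) ^ 2) := by ring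
      _ ≤ 24 * ((k : ℝ) ^ 2 * (l : ℝ) ^ 2) := by
        apply mul_le_mul_of_nonneg_right _ (by positivity)
        norm_num
      _ = 6 * (4 * (s : ℝ) ^ 2) := by rw [g3]; ring
  have hs2k : 144 * (k : ℝ) ^ 4 ≤ 4 * (s : ℝ) ^ 2 := by
    have := mul_self_le_mul_self (by positivity) hs6
    linarith
  have f2 : k * b ≤ (1 + Real.log (1 + L)) * (4 * (s : ℝ) ^ 2) := by
    have g1 : (k : ℝ) * b ≤ k * (19 * k + Real.log (1 + L)) :=
      mul_le_mul_of_nonneg_left hbb (by linarith)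
    have g2 : k * (19 * k + Real.log (1 + L)) ≤ (1 + Real.log (1 + L)) * (144 * (k : ℝ) ^ 4) := by
      have g4 : 19 * (k : ℝ) ^ 2 ≤ 144 * (k : ℝ) ^ 4 := by
        have g5 : (k : ℝ) ^ 2 ≤ (k : ℝ) ^ 4 := pow_le_pow_right₀ (by linarith) (by norm_num)
        have g6 : (0 : ℝ) ≤ (k : ℝ) ^ 4 := by positivity
        linarith
      have g7 : (k : ℝ) ≤ 144 * (k : ℝ) ^ 4 := by
        have g8 : (k : ℝ) ^ 1 ≤ (k : ℝ) ^ 4 := pow_le_pow_right₀ (by linarith) (by norm_num)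
        have g9 : (0 : ℝ) ≤ (k : ℝ) ^ 4 := by positivity
        rw [pow_one] at g8
        linarith
      have g10 := mul_le_mul_of_nonneg_right g7 hlogL
      linarith
    refine g1.trans (g2.trans ?_)
    exact mul_le_mul_of_nonneg_left hs2k (by positivity)
  have f3 : 1 / 141120 / (k : ℝ) ^ 2 * L * (4 * (s : ℝ) ^ 2) ≤ (k : ℝ) ^ 2 / 720 * L := by
    have g1 : (s : ℝ) ^ 2 ≤ 49 * (k : ℝ) ^ 4 := by
      have := mul_self_le_mul_self hs0.le hs7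
      linarith
    have g2 : 1 / 141120 / (k : ℝ) ^ 2 * L * (4 * (s : ℝ) ^ 2) ≤
        1 / 141120 / (k : ℝ) ^ 2 * L * (4 * (49 * (k : ℝ) ^ 4)) := by
      apply mul_le_mul_of_nonneg_left _ (by positivity)
      linarith
    refine g2.trans (le_of_eq ?_)
    field_simp
    norm_num
  have f4 : (2 * a + 7 + Real.log (1 + L) - 1 / 141120 / (k : ℝ) ^ 2 * L) *
      (4 * (s : ℝ) ^ 2) = 8 * (s : ℝ) ^ 2 * a + 6 * (4 * (s : ℝ) ^ 2) +
      (1 + Real.log (1 + L)) * (4 * (s : ℝ) ^ 2) -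
      1 / 141120 / (k : ℝ) ^ 2 * L * (4 * (s : ℝ) ^ 2) := by ring
  rw [f4]
  linarith

end Pool.Agent.H49.VK
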