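import Pool.Agent.H49.VK.NumA
import Pool.Agent.H49.BT.NumC

/-!
# [H49 VK NUMC] The final inequality (as in `H49/BT/NumC`)
-/

set_option autoImplicit false

namespace Pool.Agent.H49.VK

open Filter Pool.Agent.H49.BT

theorem numC (c4 C1 : ℝ) (hc4 : 0 < c4) (hc4' : c4 ≤ 1 / 1000) (hC1 : 1 ≤ C1)
    (hC3 : 3 ≤ c4 * C1 ^ 3) : ∀ᶠ x : ℝ in atTop,
    ∀ H : ℝ, Rnk C1 x H →
    (H + H ^ (1 - Dd c4 x H)) / Real.log (Rr c4 x H) + 34 * H ^ (1 - 3 * Dd c4 x H) ≤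
      (2 - Dd c4 x H / 4) * (H / Real.log H) := by
  filter_upwards [bas C1 4 hC1, big c4 C1 (100 / c4) 2 hc4 hC1 (by norm_num; linarith)] with x hx hx2 H hH
  obtain ⟨h4, hL1, -, hLh, hH1, -⟩ := hx H hH
  have hbig := hx2 H hH
  obtain ⟨D, hD⟩ : ∃ D, D = Dd c4 x H := ⟨_, rfl⟩
  obtain ⟨h, hh⟩ : ∃ h, h = Real.log H := ⟨_, rfl⟩
  obtain ⟨L, hL⟩ : ∃ L, L = Real.log x := ⟨_, rfl⟩
  have hDe : D = c4 * (h / L) ^ 2 := by rw [hD, hh, hL]; rfl
  have hR : (Rr c4 x H : ℝ) = (⌊H ^ ((1 + D) / 2)⌋₊ : ℝ) := by rw [hD]; rfl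
  rw [← hh] at h4 hLh
  rw [← hL] at hL1 hLh hbig
  rw [← hD] at hbig
  rw [hR, ← hD, ← hh]
  have hH0 : 0 < H := by linarith
  have hL0 : 0 < L := by linarith
  have hh0 : 0 < h := by linarith
  have hθ0 : 0 < h / L := by positivity
  have hθ1 : h / L ≤ 1 / 2 := by
    rw [div_le_iff₀ hL0]
    linarith
  have hD0 : 0 < D := by rw [hDe]; positivity
  have hD1 : D ≤ 1 / 4000 := by
    have h5 : (h / L) ^ 2 ≤ (1 / 2) ^ 2 := by gcongr
    rw [hDe]
    nlinarith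
  have hDL : c4 / L ^ 2 ≤ D := by
    rw [hDe, div_pow, mul_div_assoc']
    have h5 : (1 : ℝ) ≤ h ^ 2 := by nlinarith
    gcongr
    nlinarith
  obtain ⟨P, hP⟩ : ∃ P, P = H ^ D := ⟨_, rfl⟩
  have hP0 : 0 < P := by rw [hP]; exact Real.rpow_pos_of_pos hH0 _
  rw [← hP] at hbig
  -- `t = 1/P`
  obtain ⟨t, ht⟩ : ∃ t, t = P⁻¹ := ⟨_, rfl⟩
  have ht0 : 0 < t := by rw [ht]; positivity
  have htP : t * P = 1 := by rw [ht]; exact inv_mul_cancel₀ hP0.ne'
  have ht1 : t ≤ D / 100 := by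
    have h5 : 100 / c4 * L ^ 2 * (c4 / L ^ 2) = 100 := by
      field_simp
    have h6 : 100 ≤ P * D := by
      calc (100 : ℝ) = 100 / c4 * L ^ 2 * (c4 / L ^ 2) := h5.symm
        _ ≤ P * D := by gcongr
    have h7 : t * 100 ≤ t * (P * D) := by gcongr
    have h8 : t * (P * D) = D := by rw [← mul_assoc, htP, one_mul]
    linarith
  have hPL : L ^ 2 ≤ P := by
    have h5 : (1 : ℝ) ≤ 100 / c4 := by
      rw [le_div_iff₀ hc4]
      linarith
    have h6 : 1 * L ^ 2 ≤ 100 / c4 * L ^ 2 := by gcongr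
    linarith
  have htL : L * t ^ 2 ≤ 1 := by
    have h5 : t * L ^ 2 ≤ 1 := by
      calc t * L ^ 2 ≤ t * P := by gcongr
        _ = 1 := htP
    have h6 : L ≤ L ^ 2 := by nlinarith
    have h7 : t * L ≤ 1 := le_trans (by gcongr) h5
    have h8 : t ≤ 1 := by linarith
    calc L * t ^ 2 = (t * L) * t := by ring
      _ ≤ 1 * 1 := by gcongr
      _ = 1 := one_mul 1
  -- powers of `H`
  have e1 : H ^ (1 - D) = H * t := by
    rw [Real.rpow_sub hH0, Real.rpow_one, ← hP, ht, div_eq_mul_inv]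
  have e3 : H ^ (1 - 3 * D) = H * t ^ 3 := by
    rw [Real.rpow_sub hH0, Real.rpow_one, mul_comm 3 D, Real.rpow_mul hH0.le, ← hP, ht,
      div_eq_mul_inv, inv_pow]
    norm_cast
  obtain ⟨y, hy⟩ : ∃ y, y = H ^ ((1 + D) / 2) := ⟨_, rfl⟩
  have hy0 : 0 < y := by rw [hy]; exact Real.rpow_pos_of_pos hH0 _
  have hylog : Real.log y = (1 + D) / 2 * h := by rw [hy, Real.log_rpow hH0, ← hh]
  have hy2 : 2 ≤ y := by
    have h5 : Real.log y + 1 ≤ y := by
      have := Real.add_one_le_exp (Real.log y)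
      rwa [Real.exp_log hy0] at this
    rw [hylog] at h5
    nlinarith
  have hyt : 1 ≤ t * y := by
    have h5 : t * y = H ^ ((1 - D) / 2) := by
      rw [ht, hP, hy, ← Real.rpow_neg hH0.le, ← Real.rpow_add hH0]
      congr 1
      ring
    rw [h5]
    apply Real.one_le_rpow hH1.le
    linarith
  have hlog : h / 2 * (1 + D - t) ≤ Real.log (⌊y⌋₊ : ℝ) := by
    have h5 := log_floor_ge hy2
    have h6 : 2 / y ≤ h / 2 * t := by
      rw [div_le_iff₀ hy0]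
      have : h / 2 * t * y = h / 2 * (t * y) := by ring
      rw [this]
      nlinarith
    rw [hylog] at h5
    linarith
  have hpos : 0 < 1 + D - t := by linarith
  have hA : (H + H ^ (1 - D)) / Real.log (⌊y⌋₊ : ℝ) ≤ 2 * H / h * (1 - D / 2) := by
    rw [e1]
    have h5 : 0 < h / 2 * (1 + D - t) := by positivity
    have h6 : 0 < Real.log (⌊y⌋₊ : ℝ) := lt_of_lt_of_le h5 hlog
    rw [div_le_iff₀ h6]
    have h7 : 0 ≤ 2 * H / h * (1 - D / 2) := by
      have : 0 ≤ 1 - D / 2 := by linarith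
      positivity
    have h8 : 2 * H / h * (1 - D / 2) * (h / 2 * (1 + D - t)) =
        H * ((1 - D / 2) * (1 + D - t)) := by
      field_simp
    have h9 : 1 + t ≤ (1 - D / 2) * (1 + D - t) := by nlinarith
    calc H + H * t = H * (1 + t) := by ring
      _ ≤ H * ((1 - D / 2) * (1 + D - t)) := by gcongr
      _ = 2 * H / h * (1 - D / 2) * (h / 2 * (1 + D - t)) := h8.symm
      _ ≤ 2 * H / h * (1 - D / 2) * Real.log (⌊y⌋₊ : ℝ) := by gcongr
  have hB : 34 * H ^ (1 - 3 * D) ≤ 2 * H / h * (D / 8) := by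
    rw [e3]
    have h5 : 34 * (H * t ^ 3) = 2 * H / h * (17 * h * t ^ 3) := by
      field_simp
      ring
    rw [h5]
    have h6 : 17 * h * t ^ 3 ≤ D / 8 := by
      have h7 : h * t ^ 2 ≤ 1 / 2 := by
        have : h * t ^ 2 ≤ L / 2 * t ^ 2 := by gcongr
        linarith
      have h8 : 17 * h * t ^ 3 = 17 * (h * t ^ 2) * t := by ring
      rw [h8]
      have h9 : 17 * (h * t ^ 2) * t ≤ 17 * (1 / 2) * (D / 100) := by gcongr
      linarith
    gcongr
  rw [← hy]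
  have hfin : 2 * H / h * (1 - D / 2) + 2 * H / h * (D / 8) ≤ (2 - D / 4) * (H / h) := by
    have h5 : 2 * H / h * (1 - D / 2) + 2 * H / h * (D / 8) = (2 - 3 * D / 4) * (H / h) := by
      field_simp
      ring
    rw [h5]
    have h6 : 2 - 3 * D / 4 ≤ 2 - D / 4 := by linarith
    have h7 : 0 ≤ H / h := by positivity
    gcongr
  linarith

end Pool.Agent.H49.VK
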