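import Pool.Agent.H49.VK.Defs
import Pool.Agent.H49.BT.Gee
import Pool.Agent.H49.BT.Exb

/-!
# [H49 VK TBK] The bound of the exponential form `T`

PROOF. As `Pool.Agent.H49.BT.tbd`, with `K` in place of `exp(C κ^3)`.
-/

set_option autoImplicit false

namespace Pool.Agent.H49.VK

open Finset Pool.Agent.H49.BT

/-- one block -/
private theorem block_bd (c C : ℝ) (hc : 0 < c) (hC : 0 < C) (hex : ExpK c C) (R S A A' : ℕ) (B κ Y : ℝ)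
    (hκ : 2 ≤ κ) (hB : 1 ≤ B) (hSR : S ≤ R) (hBA : B ≤ A) (h2 : A' ≤ 2 * A) (hAS : A ≤ S)
    (hY1 : (S : ℝ) ^ 2 ≤ Y) (hY2 : Y ≤ B ^ κ) :
    ‖∑ a ∈ Ioc A A', H24.AB.ee (Y / (a : ℝ))‖ ≤
      S * (C * (1 + Real.log R) * B ^ (-(c / κ ^ 2))) := by
  have hA0 : (0 : ℝ) < A := by linarith
  have hA1 : 1 ≤ A := by
    have : (0 : ℝ) < A := hA0
    exact_mod_cast this
  have hASr : (A : ℝ) ≤ S := by exact_mod_cast hAS
  have hARr : (A : ℝ) ≤ R := hASr.trans (by exact_mod_cast hSR)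
  have h3 : (A : ℝ) ^ 2 ≤ Y := (pow_le_pow_left₀ hA0.le hASr 2).trans hY1
  have h4 : Y ≤ (A : ℝ) ^ κ := hY2.trans (Real.rpow_le_rpow (by linarith) hBA (by linarith))
  have h5 := hex A A' Y κ hA1 h2 hκ h3 h4
  refine h5.trans ?_
  have hs : 0 ≤ c / κ ^ 2 := by positivity
  have h6 : (A : ℝ) ^ (1 - c / κ ^ 2) = A * (A : ℝ) ^ (-(c / κ ^ 2)) := by
    rw [sub_eq_add_neg, Real.rpow_add hA0, Real.rpow_one]
  have h7 : (A : ℝ) ^ (-(c / κ ^ 2)) ≤ B ^ (-(c / κ ^ 2)) :=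
    Real.rpow_le_rpow_of_nonpos (by linarith) hBA (by linarith)
  have h8 : Real.log A ≤ Real.log R := Real.log_le_log hA0 hARr
  have h9 : 0 ≤ Real.log A := Real.log_natCast_nonneg A
  have h10 : 0 ≤ (A : ℝ) ^ (-(c / κ ^ 2)) := Real.rpow_nonneg hA0.le _
  rw [h6]
  calc C * (1 + Real.log A) * (A * (A : ℝ) ^ (-(c / κ ^ 2)))
      ≤ C * (1 + Real.log R) * (S * B ^ (-(c / κ ^ 2))) := by
        gcongr
    _ = S * (C * (1 + Real.log R) * B ^ (-(c / κ ^ 2))) := by ring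

theorem tbk (c C : ℝ) (hc : 0 < c) (hC : 0 < C) (hex : ExpK c C) (l : ℕ → ℝ)
    (hl : ∀ d, |l d| ≤ 1) (R G0 J : ℕ) (η κ z : ℝ) (hG : 1 ≤ G0) (hη : 0 < η) (hη1 : η ≤ 1)
    (hκ : 2 ≤ κ) (hJ : 1 ≤ 2 ^ J * η) (hRG : 2 * (G0 : ℝ) ^ 2 ≤ R * η)
    (hz1 : (R : ℝ) ^ 3 * (G0 : ℝ) ^ 3 ≤ z * η)
    (hz2 : z ≤ (R * η / (2 * (G0 : ℝ) ^ 2)) ^ κ) :
    ‖T l R z‖ ≤ (4 * Real.sqrt (5 * η + J * (C * (1 + Real.log R) *
      (R * η / (2 * (G0 : ℝ) ^ 2)) ^ (-(c / κ ^ 2)))) + 4 / G0) * (R : ℝ) ^ 4 := by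
  have hG' : (1 : ℝ) ≤ G0 := by exact_mod_cast hG
  have hG2 : (1 : ℝ) ≤ (G0 : ℝ) ^ 2 := one_le_pow₀ hG'
  have hR0 : (0 : ℝ) ≤ R := Nat.cast_nonneg R
  have hRη : (R : ℝ) * η ≤ R := mul_le_of_le_one_right hR0 hη1
  have hR2 : (2 : ℝ) ≤ R := by linarith
  have hlogR : 0 ≤ Real.log R := Real.log_natCast_nonneg R
  obtain ⟨B, hBdef⟩ : ∃ B : ℝ, B = R * η / (2 * (G0 : ℝ) ^ 2) := ⟨_, rfl⟩
  rw [← hBdef] at hz2 ⊢
  have hB1 : 1 ≤ B := by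
    rw [hBdef, le_div_iff₀ (by positivity)]
    linarith
  obtain ⟨ρ, hρdef⟩ : ∃ ρ : ℝ, ρ = C * (1 + Real.log R) * B ^ (-(c / κ ^ 2)) :=
    ⟨_, rfl⟩
  rw [← hρdef]
  have hρ0 : 0 ≤ ρ := by
    rw [hρdef]
    have := Real.rpow_nonneg (show (0 : ℝ) ≤ B by linarith) (-(c / κ ^ 2))
    have h2 := hC.le
    exact mul_nonneg (mul_nonneg h2 (by linarith)) this
  have hz0 : 0 ≤ z := by
    have h1 : 0 ≤ z * η := le_trans (by positivity) hz1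
    by_contra h
    have h' := lt_of_not_ge h
    nlinarith
  have hT0 : 0 ≤ 5 * η + J * ρ := by positivity
  refine gee l hl R G0 hG z _ (Real.sqrt_nonneg _) ?_
  intro g e hg hgG he heG
  obtain ⟨S, hS⟩ : ∃ S : ℕ, S = R / (g * e) := ⟨_, rfl⟩
  rw [← hS]
  have hg' : (1 : ℝ) ≤ g := by exact_mod_cast hg
  have he' : (1 : ℝ) ≤ e := by exact_mod_cast he
  have hgG' : (g : ℝ) ≤ G0 := by exact_mod_cast hgG
  have heG' : (e : ℝ) ≤ G0 := by exact_mod_cast heG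
  have hge : (g : ℝ) * e ≤ (G0 : ℝ) ^ 2 := by nlinarith
  have hge1 : (1 : ℝ) ≤ (g : ℝ) * e := by nlinarith
  have hge0 : 0 < g * e := Nat.mul_pos hg he
  have hS1 : (S : ℝ) * (g * e) ≤ R := by
    have : S * (g * e) ≤ R := by rw [hS]; exact Nat.div_mul_le_self R (g * e)
    exact_mod_cast this
  have hS2 : (R : ℝ) < (g * e) * (S + 1) := by
    have : R < (g * e) * (S + 1) := by
      rw [hS]
      have := Nat.lt_mul_div_succ R hge0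
      simpa using this
    exact_mod_cast this
  have hS0 : (0 : ℝ) ≤ S := Nat.cast_nonneg S
  have hSR : S ≤ R := by rw [hS]; exact Nat.div_le_self _ _
  have hSG : (R : ℝ) ≤ 2 * (G0 : ℝ) ^ 2 * S := by
    have h1 : (g : ℝ) * e * (S + 1) ≤ (G0 : ℝ) ^ 2 * (S + 1) := by gcongr
    nlinarith
  have hBS : B ≤ S * η := by
    rw [hBdef, div_le_iff₀ (by positivity)]
    nlinarith
  have hSη1 : 1 ≤ (S : ℝ) * η := hB1.trans hBS
  have hS1' : (1 : ℝ) ≤ S := by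
    have : (S : ℝ) * η ≤ S := mul_le_of_le_one_right hS0 hη1
    linarith
  obtain ⟨w, hw⟩ : ∃ w : ℝ, w = z / ((g : ℝ) * (e : ℝ) ^ 2) := ⟨_, rfl⟩
  rw [← hw]
  have hgee : (1 : ℝ) ≤ (g : ℝ) * (e : ℝ) ^ 2 := by nlinarith
  have hw0 : 0 ≤ w := by rw [hw]; positivity
  have hwz : w ≤ z := by
    rw [hw]
    exact div_le_self hz0 hgee
  have hSw : (S : ℝ) ^ 3 ≤ w * η := by
    rw [hw, div_mul_eq_mul_div, le_div_iff₀ (by positivity)]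
    have h1 : ((S : ℝ) * (g * e)) ^ 3 ≤ (R : ℝ) ^ 3 := pow_le_pow_left₀ (by positivity) hS1 3
    have h2 : (1 : ℝ) ≤ (G0 : ℝ) ^ 3 := one_le_pow₀ hG'
    have h3 : (1 : ℝ) ≤ (g : ℝ) ^ 2 * e := by nlinarith
    have h4 : (S : ℝ) ^ 3 * (g * e ^ 2) ≤ ((S : ℝ) * (g * e)) ^ 3 := by
      have h5 : ((S : ℝ) * (g * e)) ^ 3 = (S : ℝ) ^ 3 * (g * e ^ 2) * ((g : ℝ) ^ 2 * e) := by ring
      rw [h5]
      exact le_mul_of_one_le_right (by positivity) h3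
    calc (S : ℝ) ^ 3 * (g * e ^ 2) ≤ ((S : ℝ) * (g * e)) ^ 3 := h4
      _ ≤ (R : ℝ) ^ 3 := h1
      _ ≤ (R : ℝ) ^ 3 * (G0 : ℝ) ^ 3 := le_mul_of_one_le_right (by positivity) h2
      _ ≤ z * η := hz1
  obtain ⟨Q, hQdef⟩ : ∃ Q : ℕ, Q = ⌈(S : ℝ) * η⌉₊ := ⟨_, rfl⟩
  obtain ⟨P, hPdef⟩ : ∃ P : ℕ, P = ⌊(S : ℝ) * η⌋₊ := ⟨_, rfl⟩
  have hQ1 : (S : ℝ) * η ≤ Q := by rw [hQdef]; exact Nat.le_ceil _
  have hQ2 : (Q : ℝ) ≤ 2 * (S * η) := by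
    have : (Q : ℝ) < S * η + 1 := by rw [hQdef]; exact Nat.ceil_lt_add_one (by positivity)
    linarith
  have hQ3 : 1 ≤ Q := by
    have : (1 : ℝ) ≤ Q := hSη1.trans hQ1
    exact_mod_cast this
  have hP1 : (P : ℝ) ≤ S * η := by rw [hPdef]; exact Nat.floor_le (by positivity)
  have hP2 : (S : ℝ) * η < P + 1 := by rw [hPdef]; exact Nat.lt_floor_add_one _
  have hJ' : S ≤ 2 ^ J * Q := by
    have h1 : (S : ℝ) ≤ 2 ^ J * Q := by
      calc (S : ℝ) = S * 1 := (mul_one _).symm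
        _ ≤ S * (2 ^ J * η) := by gcongr
        _ = 2 ^ J * (S * η) := by ring
        _ ≤ 2 ^ J * Q := by gcongr
    exact_mod_cast h1
  have hV : ∀ b c' : ℕ, 1 ≤ b → b + P < c' → c' ≤ S →
      ‖V S (w * (1 / (b : ℝ) - 1 / (c' : ℝ)))‖ ≤ 2 * (S * η) + J * (S * ρ) := by
    intro b c' hb hbc hcS
    have hb' : (1 : ℝ) ≤ b := by exact_mod_cast hb
    have hbc' : (b : ℝ) + P + 1 ≤ c' := by exact_mod_cast hbc
    have hcS' : (c' : ℝ) ≤ S := by exact_mod_cast hcS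
    have hP0 : (0 : ℝ) ≤ P := Nat.cast_nonneg P
    have hc0 : (0 : ℝ) < c' := by linarith
    have hb0 : (0 : ℝ) < b := by linarith
    have hd : η / S ≤ 1 / (b : ℝ) - 1 / (c' : ℝ) := by
      rw [div_sub_div _ _ hb0.ne' hc0.ne', div_le_div_iff₀ (by linarith) (by positivity)]
      have h1 : (b : ℝ) * c' ≤ S * S := by
        apply mul_le_mul (by linarith) hcS' hc0.le hS0
      have h2 : η * (b * c') ≤ η * (S * S) := by gcongr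
      have h3 : η * (S * S) ≤ (1 * c' - b * 1) * S := by
        have : S * η ≤ 1 * c' - b * 1 := by linarith
        nlinarith
      linarith
    have hd1 : 1 / (b : ℝ) - 1 / (c' : ℝ) ≤ 1 := by
      have h1 : 1 / (b : ℝ) ≤ 1 := by rw [div_le_one hb0]; exact hb'
      have h2 : 0 ≤ 1 / (c' : ℝ) := by positivity
      linarith
    have hY1 : (S : ℝ) ^ 2 ≤ w * (1 / (b : ℝ) - 1 / (c' : ℝ)) := by
      have h1 : (S : ℝ) ^ 2 ≤ w * (η / S) := by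
        rw [← mul_div_assoc, le_div_iff₀ (by linarith)]
        calc (S : ℝ) ^ 2 * S = (S : ℝ) ^ 3 := by ring
          _ ≤ w * η := hSw
      exact h1.trans (mul_le_mul_of_nonneg_left hd hw0)
    have hY2 : w * (1 / (b : ℝ) - 1 / (c' : ℝ)) ≤ B ^ κ := by
      refine le_trans ?_ (hwz.trans hz2)
      exact mul_le_of_le_one_right hw0 hd1
    have h := exb S Q J hQ3 hJ' (w * (1 / (b : ℝ) - 1 / (c' : ℝ))) (S * ρ) (by positivity)
      (fun A A' h1 h2 h3 h4 => by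
        rw [hρdef]
        refine block_bd c C hc hC hex R S A A' B κ _ hκ hB1 hSR ?_ h3 (h2.trans h4) hY1 hY2
        have : (Q : ℝ) ≤ A := by exact_mod_cast h1
        linarith)
    linarith
  have hU := prs (fun a => l (g * e * a)) (fun a => l (g * e * a)) (fun n => hl _) (fun n => hl _)
    S P w (2 * (S * η) + J * (S * ρ)) (by positivity) hV
  have hU2 : ‖U (fun a => l (g * e * a)) (fun a => l (g * e * a)) S w‖ ^ 2 ≤
      (Real.sqrt (5 * η + J * ρ) * (S : ℝ) ^ 4) ^ 2 := by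
    rw [mul_pow, Real.sq_sqrt hT0]
    refine hU.trans ?_
    have h1 : 2 * (P : ℝ) + 1 + (2 * (S * η) + J * (S * ρ)) ≤ S * (5 * η + J * ρ) := by
      nlinarith
    calc (S : ℝ) ^ 7 * (2 * (P : ℝ) + 1 + (2 * (S * η) + J * (S * ρ)))
        ≤ (S : ℝ) ^ 7 * (S * (5 * η + J * ρ)) := by gcongr
      _ = (5 * η + J * ρ) * ((S : ℝ) ^ 4) ^ 2 := by ring
  exact le_of_sq_le_sq hU2 (by positivity)

end Pool.Agent.H49.VK
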