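import Pool.Agent.H49.BT.Svi
import Pool.Agent.H49.BT.Tr
import Pool.Agent.H49.VK.Tbk
import Pool.Agent.H49.VK.Exk
import Pool.Agent.H49.VK.NumB
import Pool.Agent.H49.VK.NumC

/-!
# [H49 VK FIN] The theorem (as in `H49/BT/Fin`)
-/

set_option autoImplicit false

namespace Pool.Agent.H49.VK

open Finset Filter Pool.Agent.H49.BT

/-- the bound of one remainder -/
private theorem W_bd (c4 x H y : ℝ) (l : ℕ → ℝ) (hl : ∀ d, |l d| ≤ 1) (hH : 1 < H)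
    (hG1 : 1 ≤ Gg c4 x H) (hG2 : H ^ (6 * Dd c4 x H) ≤ Gg c4 x H)
    (hG3 : 2 * x * Gg c4 x H ≤ x ^ 2)
    (hR4 : (Rr c4 x H : ℝ) ^ 4 ≤ H ^ (2 + 2 * Dd c4 x H))
    (hy1 : x / 2 ≤ y) (hy2 : y ≤ 2 * x) (hx : 0 < x)
    (hT : ∀ z : ℝ, x / 2 ≤ z → z ≤ x ^ 2 →
      ‖T l (Rr c4 x H) z‖ ≤ 16 * H ^ (-(6 * Dd c4 x H)) * (Rr c4 x H : ℝ) ^ 4) :
    |W l (Rr c4 x H) y| ≤ 17 * H ^ (2 - 4 * Dd c4 x H) := by
  have hH0 : 0 < H := by linarith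
  have hGr : (1 : ℝ) ≤ Gg c4 x H := by exact_mod_cast hG1
  have h := tr l hl (Rr c4 x H) (Gg c4 x H) hG1 y
    (16 * H ^ (-(6 * Dd c4 x H)) * (Rr c4 x H : ℝ) ^ 4) (fun k hk => by
      rw [Finset.mem_Icc] at hk
      have hk1 : (1 : ℝ) ≤ k := by exact_mod_cast hk.1
      have hk2 : (k : ℝ) ≤ Gg c4 x H := by exact_mod_cast hk.2
      have hy0 : 0 < y := by linarith
      apply hT
      · nlinarith
      · calc (k : ℝ) * y ≤ Gg c4 x H * (2 * x) := by gcongr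
          _ = 2 * x * Gg c4 x H := by ring
          _ ≤ x ^ 2 := hG3)
  have hp : (0 : ℝ) < H ^ (6 * Dd c4 x H) := Real.rpow_pos_of_pos hH0 _
  have h1 : (Rr c4 x H : ℝ) ^ 4 / Gg c4 x H ≤ H ^ (-(6 * Dd c4 x H)) * (Rr c4 x H : ℝ) ^ 4 := by
    rw [Real.rpow_neg hH0.le, inv_mul_eq_div]
    exact div_le_div_of_nonneg_left (by positivity) hp hG2
  have h2 : H ^ (-(6 * Dd c4 x H)) * (Rr c4 x H : ℝ) ^ 4 ≤ H ^ (2 - 4 * Dd c4 x H) := by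
    calc H ^ (-(6 * Dd c4 x H)) * (Rr c4 x H : ℝ) ^ 4
        ≤ H ^ (-(6 * Dd c4 x H)) * H ^ (2 + 2 * Dd c4 x H) := by
          have := Real.rpow_nonneg hH0.le (-(6 * Dd c4 x H))
          gcongr
      _ = H ^ (2 - 4 * Dd c4 x H) := by
          rw [← Real.rpow_add hH0]
          congr 1
          ring
  linarith

theorem main : ∃ c : ℝ, 0 < c ∧ ∃ C : ℝ, ∃ x₀ : ℝ, ∀ x : ℝ, x₀ ≤ x → ∀ H : ℝ,
    Real.exp (C * (Real.log x) ^ (2 / 3 : ℝ) * (Real.log (Real.log x)) ^ (1 / 3 : ℝ)) ≤ H →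
    H ≤ x ^ (1 / 2 : ℝ) →
    (((Finset.Ioc ⌊x⌋₊ ⌊x + H⌋₊).filter Nat.Prime).card : ℝ) ≤
      (2 - c * (Real.log H / Real.log x) ^ 2) * (H / Real.log H) := by
  obtain ⟨c, K, hc, hK, hex'⟩ := expsumK
  have hex : ExpK c K := fun A A' Y κ h1 h2 h3 h4 h5 => hex' A A' Y κ h1 h2 (by linarith) h4 h5
  obtain ⟨c4, hc4def⟩ : ∃ c4 : ℝ, c4 = min (1 / 1000) (c / 1000) := ⟨_, rfl⟩
  have hc4 : 0 < c4 := by rw [hc4def]; positivity
  have hc4' : c4 ≤ 1 / 1000 := by rw [hc4def]; exact min_le_left _ _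
  have hc4c : c4 ≤ c / 1000 := by rw [hc4def]; exact min_le_right _ _
  obtain ⟨C1, hC1def⟩ : ∃ C1 : ℝ, C1 = 3 / c4 := ⟨_, rfl⟩
  have hC1' : 3 ≤ C1 := by
    rw [hC1def, le_div_iff₀ hc4]
    linarith
  have hC1 : 1 ≤ C1 := by linarith
  have hC3 : 3 ≤ c4 * C1 ^ 3 := by
    have h1 : c4 * C1 = 3 := by rw [hC1def]; field_simp
    have h2 : (1 : ℝ) ≤ C1 ^ 2 := one_le_pow₀ hC1
    calc (3 : ℝ) = 3 * 1 := by norm_num
      _ ≤ 3 * C1 ^ 2 := by gcongr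
      _ = c4 * C1 * C1 ^ 2 := by rw [h1]
      _ = c4 * C1 ^ 3 := by ring
  refine ⟨c4 / 4, by positivity, C1, ?_⟩
  rw [← Filter.eventually_atTop (p := fun x : ℝ => ∀ H : ℝ,
    Real.exp (C1 * (Real.log x) ^ (2 / 3 : ℝ) * (Real.log (Real.log x)) ^ (1 / 3 : ℝ)) ≤ H →
    H ≤ x ^ (1 / 2 : ℝ) →
    (((Finset.Ioc ⌊x⌋₊ ⌊x + H⌋₊).filter Nat.Prime).card : ℝ) ≤
      (2 - c4 / 4 * (Real.log H / Real.log x) ^ 2) * (H / Real.log H))]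
  filter_upwards [bas C1 1 hC1, numA c4 C1 hc4 hc4' hC1 hC3,
    numB c K c4 C1 hc hK hc4 hc4' hc4c hC1 hC3, numC c4 C1 hc4 hc4' hC1 hC3,
    Filter.eventually_ge_atTop (4 : ℝ)] with x hbas hA hB hCC hx4 H hH1 hH2
  have hR : Rnk C1 x H := ⟨hH1, hH2⟩
  obtain ⟨-, hL1, -, -, hHgt, -⟩ := hbas H hR
  obtain ⟨a1, a2, a3, a4, a5, a6, a7, a8, a9, a10, a11, a12, a13, a14⟩ := hA H hR
  have hB := hB H hR
  have hCC := hCC H hR
  have hx0 : 0 < x := by linarith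
  have hH0 : 0 < H := by linarith
  have hlogH : 0 < Real.log H := Real.log_pos hHgt
  have hD0 : 0 ≤ Dd c4 x H := by
    unfold Dd
    positivity
  have hHx : H ≤ x / 2 := by
    have h1 : H ^ 2 ≤ x := by
      calc H ^ 2 ≤ (x ^ (1 / 2 : ℝ)) ^ 2 := pow_le_pow_left₀ hH0.le hH2 2
        _ = x := by
          rw [← Real.rpow_natCast, ← Real.rpow_mul hx0.le]
          norm_num
    nlinarith
  obtain ⟨Δ, hΔ⟩ : ∃ Δ : ℝ, Δ = H ^ (1 - Dd c4 x H) := ⟨_, rfl⟩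
  have hΔ0 : 0 < Δ := by rw [hΔ]; exact Real.rpow_pos_of_pos hH0 _
  have hΔH : Δ ≤ H := by
    rw [hΔ]
    calc H ^ (1 - Dd c4 x H) ≤ H ^ (1 : ℝ) :=
          Real.rpow_le_rpow_of_exponent_le hHgt.le (by linarith)
      _ = H := Real.rpow_one H
  have hl : ∀ d, |H24.AB.lam (Rr c4 x H) d| ≤ 1 := fun d => H24.AB.lam_abs _ d (by omega)
  have hT : ∀ z : ℝ, x / 2 ≤ z → z ≤ x ^ 2 →
      ‖T (H24.AB.lam (Rr c4 x H)) (Rr c4 x H) z‖ ≤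
        16 * H ^ (-(6 * Dd c4 x H)) * (Rr c4 x H : ℝ) ^ 4 := by
    intro z hz1 hz2
    have h := tbk c K hc hK hex (H24.AB.lam (Rr c4 x H)) hl (Rr c4 x H) (Gg c4 x H) (Jj c4 x H)
      (et c4 x H) (kp x H) z a4 a7 a8 a9 a10 a12
      (a13.trans (by gcongr)) (hz2.trans a14)
    refine h.trans ?_
    have h4 : (0 : ℝ) ≤ (Rr c4 x H : ℝ) ^ 4 := by positivity
    exact mul_le_mul_of_nonneg_right hB h4
  have hW : ∀ y : ℝ, x / 2 ≤ y → y ≤ 2 * x →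
      |W (H24.AB.lam (Rr c4 x H)) (Rr c4 x H) y| ≤ 17 * H ^ (2 - 4 * Dd c4 x H) := fun y h1 h2 =>
    W_bd c4 x H y _ hl hHgt a4 a5 a6 a3 h1 h2 hx0 hT
  have hs := svi x H Δ hΔ0 (by linarith) hH0.le (Rr c4 x H) a1 a2
  have w1 := hW (x - Δ) (by linarith) (by linarith)
  have w2 := hW x (by linarith) (by linarith)
  have w3 := hW (x + H) (by linarith) (by linarith)
  have w4 := hW (x + H + Δ) (by linarith) (by linarith)
  have h34 : 1 / (2 * Δ) * (4 * (17 * H ^ (2 - 4 * Dd c4 x H))) =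
      34 * H ^ (1 - 3 * Dd c4 x H) := by
    have h1 : H ^ (2 - 4 * Dd c4 x H) = Δ * H ^ (1 - 3 * Dd c4 x H) := by
      rw [hΔ, ← Real.rpow_add hH0]
      congr 1
      ring
    rw [h1]
    field_simp
    ring
  have hsum : 1 / (2 * Δ) * (|W (H24.AB.lam (Rr c4 x H)) (Rr c4 x H) (x - Δ)| +
      |W (H24.AB.lam (Rr c4 x H)) (Rr c4 x H) x| +
      |W (H24.AB.lam (Rr c4 x H)) (Rr c4 x H) (x + H)| +
      |W (H24.AB.lam (Rr c4 x H)) (Rr c4 x H) (x + H + Δ)|) ≤ 34 * H ^ (1 - 3 * Dd c4 x H) := by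
    rw [← h34]
    apply mul_le_mul_of_nonneg_left _ (by positivity)
    linarith
  have hfin : (2 - Dd c4 x H / 4) * (H / Real.log H) =
      (2 - c4 / 4 * (Real.log H / Real.log x) ^ 2) * (H / Real.log H) := by
    unfold Dd
    ring
  rw [← hfin]
  rw [hΔ] at hs hsum
  linarith

end Pool.Agent.H49.VK
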