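import Pool.Agent.H49.VK.NumO

/-!
# [H49 VK NUMA] The conditions of `tbk` for the parameters (as in `H49/BT/NumA`)
-/

set_option autoImplicit false

namespace Pool.Agent.H49.VK

open Filter Pool.Agent.H49.BT

theorem numA (c4 C1 : ℝ) (hc4 : 0 < c4) (hc4' : c4 ≤ 1 / 1000) (hC1 : 1 ≤ C1)
    (hC3 : 3 ≤ c4 * C1 ^ 3) : ∀ᶠ x : ℝ in atTop,
    ∀ H : ℝ, Rnk C1 x H →
    2 ≤ Rr c4 x H ∧ (Rr c4 x H : ℝ) ≤ x ∧ (Rr c4 x H : ℝ) ^ 4 ≤ H ^ (2 + 2 * Dd c4 x H) ∧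
    1 ≤ Gg c4 x H ∧ H ^ (6 * Dd c4 x H) ≤ Gg c4 x H ∧ 2 * x * Gg c4 x H ≤ x ^ 2 ∧
    0 < et c4 x H ∧ et c4 x H ≤ 1 ∧ 2 ≤ kp x H ∧ 1 ≤ 2 ^ (Jj c4 x H) * et c4 x H ∧
    H ^ (2 / 5 : ℝ) ≤ Rr c4 x H * et c4 x H / (2 * (Gg c4 x H : ℝ) ^ 2) ∧
    2 * (Gg c4 x H : ℝ) ^ 2 ≤ Rr c4 x H * et c4 x H ∧
    (Rr c4 x H : ℝ) ^ 3 * (Gg c4 x H : ℝ) ^ 3 ≤ x / 2 * et c4 x H ∧
    x ^ 2 ≤ (Rr c4 x H * et c4 x H / (2 * (Gg c4 x H : ℝ) ^ 2)) ^ (kp x H) := by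
  filter_upwards [bas C1 1 hC1, big c4 C1 4 0 hc4 hC1 (by norm_num; linarith)] with x hb hg H hR
  obtain ⟨hh1, hL1, -, hhL, hH1, hx1⟩ := hb H hR
  have hP0 := hg H hR
  have hH0 : 0 < H := by linarith
  have hx0 : 0 < x := by linarith
  set h := Real.log H with hh
  set L := Real.log x with hLdef
  have hh0 : 0 < h := by linarith
  have hL0 : 0 < L := by linarith
  have hrat : h / L ≤ 1 / 2 := by
    rw [div_le_iff₀ hL0]; linarith
  have hrat0 : 0 < h / L := div_pos hh0 hL0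
  have hDeq : Dd c4 x H = c4 * (h / L) ^ 2 := rfl
  have hD0 : 0 < Dd c4 x H := by rw [hDeq]; positivity
  have hD1 : Dd c4 x H ≤ 1 / 4000 := by
    rw [hDeq]
    have h2 : (h / L) ^ 2 ≤ 1 / 4 := by nlinarith
    have h3 : c4 * (h / L) ^ 2 ≤ 1 / 1000 * (1 / 4) :=
      mul_le_mul hc4' h2 (by positivity) (by norm_num)
    linarith
  have hRe : Rr c4 x H = ⌊H ^ ((1 + Dd c4 x H) / 2)⌋₊ := rfl
  have hGe : Gg c4 x H = ⌈H ^ (6 * Dd c4 x H)⌉₊ := rfl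
  have hee : et c4 x H = H ^ (-(12 * Dd c4 x H)) := rfl
  have hJe : Jj c4 x H = ⌈20 * Dd c4 x H * h⌉₊ + 1 := rfl
  have hke : kp x H = 5 * L / h := rfl
  have hP : 4 ≤ H ^ (Dd c4 x H) := by simpa using hP0
  generalize Dd c4 x H = D at *
  have hm : ∀ a b : ℝ, a ≤ b → H ^ a ≤ H ^ b := fun a b hab =>
    Real.rpow_le_rpow_of_exponent_le hH1.le hab
  have ha : ∀ a b : ℝ, H ^ (a + b) = H ^ a * H ^ b := fun a b => Real.rpow_add hH0 a b
  have hp : ∀ a : ℝ, 0 < H ^ a := fun a => Real.rpow_pos_of_pos hH0 a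
  have hexp : ∀ a : ℝ, H ^ a = Real.exp (h * a) := fun a => Real.rpow_def_of_pos hH0 a
  have hpow : ∀ (a : ℝ) (n : ℕ), (H ^ a) ^ n = H ^ (a * n) := fun a n => by
    rw [Real.rpow_mul hH0.le, Real.rpow_natCast]
  have hxe : Real.exp L = x := Real.exp_log hx0
  have hHe : Real.exp h = H := Real.exp_log hH0
  have hHH : H ^ 2 ≤ x := by
    rw [← hxe, ← hHe, ← Real.exp_nat_mul]
    apply Real.exp_le_exp.2
    push_cast
    linarith
  have hHx : H ≤ x := by nlinarith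
  -- the square root
  have hP2 : 2 ≤ H ^ (D / 2) := by
    have h1 : H ^ (D / 2) * H ^ (D / 2) = H ^ D := by rw [← ha]; congr 1; ring
    have h2 := hp (D / 2)
    nlinarith
  -- R
  have hRup : (Rr c4 x H : ℝ) ≤ H ^ ((1 + D) / 2) := by
    rw [hRe]; exact Nat.floor_le (hp _).le
  have hRlow : H ^ (1 / 2 : ℝ) ≤ (Rr c4 x H : ℝ) := by
    have h1 : H ^ ((1 + D) / 2) < (Rr c4 x H : ℝ) + 1 := by
      rw [hRe]; exact Nat.lt_floor_add_one _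
    have h2 : H ^ ((1 + D) / 2) = H ^ (1 / 2 : ℝ) * H ^ (D / 2) := by
      rw [← ha]; congr 1; ring
    have h3 : 1 ≤ H ^ (1 / 2 : ℝ) := Real.one_le_rpow hH1.le (by norm_num)
    nlinarith
  have hR2 : 2 ≤ Rr c4 x H := by
    rw [hRe]
    apply Nat.le_floor
    have h1 : H ^ D ≤ H ^ ((1 + D) / 2) := hm _ _ (by linarith)
    push_cast
    linarith
  -- G
  have hGlow : H ^ (6 * D) ≤ (Gg c4 x H : ℝ) := by
    rw [hGe]; exact Nat.le_ceil _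
  have hG6 : 1 ≤ H ^ (6 * D) := Real.one_le_rpow hH1.le (by positivity)
  have hG1 : 1 ≤ Gg c4 x H := by
    have : (1 : ℝ) ≤ (Gg c4 x H : ℝ) := le_trans hG6 hGlow
    exact_mod_cast this
  have hGup : (Gg c4 x H : ℝ) ≤ H ^ (7 * D) := by
    have h1 : (Gg c4 x H : ℝ) < H ^ (6 * D) + 1 := by
      rw [hGe]; exact Nat.ceil_lt_add_one (hp _).le
    have h2 : H ^ (7 * D) = H ^ (6 * D) * H ^ D := by
      rw [← ha]; congr 1; ring
    nlinarith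
  have hG0 : (0 : ℝ) < (Gg c4 x H : ℝ) := by
    have : 0 < Gg c4 x H := hG1
    exact_mod_cast this
  have hR0 : (0 : ℝ) < (Rr c4 x H : ℝ) := by
    have : 0 < Rr c4 x H := by omega
    exact_mod_cast this
  -- et
  have het0 : 0 < et c4 x H := by rw [hee]; exact hp _
  have het1 : et c4 x H ≤ 1 := by
    rw [hee]; exact Real.rpow_le_one_of_one_le_of_nonpos hH1.le (by linarith)
  -- base
  have hbase : H ^ (2 / 5 : ℝ) ≤ Rr c4 x H * et c4 x H / (2 * (Gg c4 x H : ℝ) ^ 2) := by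
    rw [le_div_iff₀ (by positivity)]
    have h1 : (Gg c4 x H : ℝ) ^ 2 ≤ H ^ (14 * D) := by
      calc (Gg c4 x H : ℝ) ^ 2 ≤ (H ^ (7 * D)) ^ 2 := pow_le_pow_left₀ hG0.le hGup 2
        _ = H ^ (14 * D) := by rw [hpow]; congr 1; push_cast; ring
    have h2 : 2 * (Gg c4 x H : ℝ) ^ 2 ≤ H ^ (15 * D) := by
      have : H ^ (15 * D) = H ^ (14 * D) * H ^ D := by rw [← ha]; congr 1; ring
      have h3 := hp (14 * D)
      nlinarith
    calc H ^ (2 / 5 : ℝ) * (2 * (Gg c4 x H : ℝ) ^ 2) ≤ H ^ (2 / 5 : ℝ) * H ^ (15 * D) :=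
          mul_le_mul_of_nonneg_left h2 (hp _).le
      _ = H ^ (2 / 5 + 15 * D) := (ha _ _).symm
      _ ≤ H ^ (1 / 2 + -(12 * D)) := hm _ _ (by linarith)
      _ = H ^ (1 / 2 : ℝ) * H ^ (-(12 * D)) := ha _ _
      _ ≤ Rr c4 x H * et c4 x H := by
          rw [hee]
          exact mul_le_mul_of_nonneg_right hRlow (hp _).le
  refine ⟨hR2, ?_, ?_, hG1, hGlow, ?_, het0, het1, ?_, ?_, hbase, ?_, ?_, ?_⟩
  · calc (Rr c4 x H : ℝ) ≤ H ^ ((1 + D) / 2) := hRup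
      _ ≤ H ^ (1 : ℝ) := hm _ _ (by linarith)
      _ = H := Real.rpow_one H
      _ ≤ x := hHx
  · calc (Rr c4 x H : ℝ) ^ 4 ≤ (H ^ ((1 + D) / 2)) ^ 4 := pow_le_pow_left₀ hR0.le hRup 4
      _ = H ^ (2 + 2 * D) := by rw [hpow]; congr 1; push_cast; ring
  · have h1 : 2 * (Gg c4 x H : ℝ) ≤ x := by
      have h2 : H ^ (8 * D) = H ^ (7 * D) * H ^ D := by rw [← ha]; congr 1; ring
      have h3 : H ^ (8 * D) ≤ H ^ (1 : ℝ) := hm _ _ (by linarith)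
      rw [Real.rpow_one] at h3
      have h4 := hp (7 * D)
      nlinarith
    nlinarith
  · rw [hke, le_div_iff₀ hh0]
    linarith
  · have h1 : 12 * D * h ≤ (Jj c4 x H : ℝ) * Real.log 2 := by
      have h2 : 20 * D * h ≤ (Jj c4 x H : ℝ) := by
        rw [hJe]
        push_cast
        have := Nat.le_ceil (20 * D * h)
        linarith
      have h3 : (0.6931471803 : ℝ) < Real.log 2 := Real.log_two_gt_d9
      have h4 : 0 ≤ D * h := by positivity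
      nlinarith
    have h2 : (2 : ℝ) ^ (Jj c4 x H) = Real.exp ((Jj c4 x H : ℝ) * Real.log 2) := by
      rw [Real.exp_nat_mul, Real.exp_log (by norm_num)]
    rw [h2, hee, hexp, ← Real.exp_add]
    apply Real.one_le_exp
    linarith
  · have h1 : 1 ≤ H ^ (2 / 5 : ℝ) := Real.one_le_rpow hH1.le (by norm_num)
    have h2 := le_trans h1 hbase
    rw [le_div_iff₀ (by positivity)] at h2
    linarith
  · have h1 : (Rr c4 x H : ℝ) ^ 3 ≤ H ^ (3 / 2 + 3 / 2 * D) := by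
      calc (Rr c4 x H : ℝ) ^ 3 ≤ (H ^ ((1 + D) / 2)) ^ 3 := pow_le_pow_left₀ hR0.le hRup 3
        _ = H ^ (3 / 2 + 3 / 2 * D) := by rw [hpow]; congr 1; push_cast; ring
    have h2 : (Gg c4 x H : ℝ) ^ 3 ≤ H ^ (21 * D) := by
      calc (Gg c4 x H : ℝ) ^ 3 ≤ (H ^ (7 * D)) ^ 3 := pow_le_pow_left₀ hG0.le hGup 3
        _ = H ^ (21 * D) := by rw [hpow]; congr 1; push_cast; ring
    have h3 : H ^ (2 + -(12 * D)) ≤ x * et c4 x H := by
      rw [ha, hee]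
      apply mul_le_mul_of_nonneg_right _ (hp _).le
      have : H ^ (2 : ℝ) = H ^ 2 := Real.rpow_two H
      rw [this]
      exact hHH
    have h4 : (Rr c4 x H : ℝ) ^ 3 * (Gg c4 x H : ℝ) ^ 3 ≤
        H ^ (3 / 2 + 3 / 2 * D) * H ^ (21 * D) :=
      mul_le_mul h1 h2 (by positivity) (hp _).le
    have h5 : H ^ (3 / 2 + 3 / 2 * D) * H ^ (21 * D) * H ^ D = H ^ (3 / 2 + 47 / 2 * D) := by
      rw [← ha, ← ha]; congr 1; ring
    have h6 : H ^ (3 / 2 + 47 / 2 * D) ≤ H ^ (2 + -(12 * D)) := hm _ _ (by linarith)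
    have h7 : 0 < H ^ (3 / 2 + 3 / 2 * D) * H ^ (21 * D) := mul_pos (hp _) (hp _)
    nlinarith
  · have h1 : (H ^ (2 / 5 : ℝ)) ^ (kp x H) ≤
        (Rr c4 x H * et c4 x H / (2 * (Gg c4 x H : ℝ) ^ 2)) ^ (kp x H) := by
      apply Real.rpow_le_rpow (hp _).le hbase
      rw [hke]
      positivity
    refine le_trans (le_of_eq ?_) h1
    rw [← Real.rpow_mul hH0.le, hexp, hke]
    have : h * (2 / 5 * (5 * L / h)) = (2 : ℕ) * L := by
      field_simp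
      push_cast
      ring
    rw [this, Real.exp_nat_mul, hxe]

end Pool.Agent.H49.VK
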