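import Pool.Agent.H49.VK.Defs

/-!
# [H49 VK NUMO] The range and the growth of `H^D`

PROOF. `L = log x`, `h = log H ≥ C1 L^(2/3) (log L)^(1/3)`, `h ≤ L/2`. `H^D = exp(c4 h^3/L^2) ≥ exp(c4 C1^3 log L) = L^(c4 C1^3)`,
and `c4 C1^3 ≥ 3`.
-/

set_option autoImplicit false

namespace Pool.Agent.H49.VK

open Filter Pool.Agent.H49.BT

theorem bas (C1 M : ℝ) (hC1 : 1 ≤ C1) : ∀ᶠ x : ℝ in atTop, ∀ H : ℝ, Rnk C1 x H →
    M ≤ Real.log H ∧ 1 ≤ Real.log x ∧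
      C1 ^ 3 * ((Real.log x) ^ 2 * Real.log (Real.log x)) ≤ (Real.log H) ^ 3 ∧
      Real.log H ≤ Real.log x / 2 ∧ 1 < H ∧ M ≤ x := by
  have h1 : ∀ᶠ x : ℝ in atTop, Real.exp 1 ≤ Real.log x :=
    Real.tendsto_log_atTop.eventually_ge_atTop _
  have h2 : ∀ᶠ x : ℝ in atTop, M ≤ (Real.log x) ^ (2 / 3 : ℝ) :=
    ((tendsto_rpow_atTop (by norm_num : (0 : ℝ) < 2 / 3)).comp
      Real.tendsto_log_atTop).eventually_ge_atTop M
  filter_upwards [h1, h2, eventually_ge_atTop M, eventually_gt_atTop 0] with x h1 h2 h3 h4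
  intro H hH
  obtain ⟨ha, hb⟩ := hH
  have he1 : (1 : ℝ) ≤ Real.exp 1 := Real.one_le_exp (by norm_num)
  have hL1 : 1 ≤ Real.log x := he1.trans h1
  have hL0 : 0 < Real.log x := by linarith
  have hll : 1 ≤ Real.log (Real.log x) := by
    rw [Real.le_log_iff_exp_le hL0]
    exact h1
  set L := Real.log x with hL
  set l := Real.log L with hl
  have hA : 1 ≤ L ^ (2 / 3 : ℝ) := Real.one_le_rpow hL1 (by norm_num)
  have hB : 1 ≤ l ^ (1 / 3 : ℝ) := Real.one_le_rpow hll (by norm_num)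
  have hH0 : 0 < H := lt_of_lt_of_le (Real.exp_pos _) ha
  have hlH : C1 * L ^ (2 / 3 : ℝ) * l ^ (1 / 3 : ℝ) ≤ Real.log H := by
    rw [Real.le_log_iff_exp_le hH0]
    exact ha
  have hlow : L ^ (2 / 3 : ℝ) ≤ C1 * L ^ (2 / 3 : ℝ) * l ^ (1 / 3 : ℝ) := by
    calc L ^ (2 / 3 : ℝ) = 1 * L ^ (2 / 3 : ℝ) * 1 := by ring
      _ ≤ C1 * L ^ (2 / 3 : ℝ) * l ^ (1 / 3 : ℝ) := by gcongr
  refine ⟨by linarith, hL1, ?_, ?_, ?_, h3⟩
  · have e1 : (C1 * L ^ (2 / 3 : ℝ) * l ^ (1 / 3 : ℝ)) ^ 3 = C1 ^ 3 * (L ^ 2 * l) := by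
      rw [mul_pow, mul_pow, ← Real.rpow_natCast (L ^ (2 / 3 : ℝ)), ← Real.rpow_mul hL0.le,
        ← Real.rpow_natCast (l ^ (1 / 3 : ℝ)), ← Real.rpow_mul (by linarith)]
      norm_num
      ring
    rw [← e1]
    exact pow_le_pow_left₀ (by positivity) hlH 3
  · have := Real.log_le_log hH0 hb
    rw [Real.log_rpow h4] at this
    linarith
  · refine lt_of_lt_of_le ?_ ha
    rw [Real.one_lt_exp_iff]
    linarith

theorem big (c4 C1 M : ℝ) (k : ℕ) (hc4 : 0 < c4) (hC1 : 1 ≤ C1) (hk : (k : ℝ) + 1 ≤ c4 * C1 ^ 3) :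
    ∀ᶠ x : ℝ in atTop, ∀ H : ℝ, Rnk C1 x H →
    M * (Real.log x) ^ k ≤ H ^ (Dd c4 x H) := by
  have h1 : ∀ᶠ x : ℝ in atTop, M ≤ Real.log x :=
    Real.tendsto_log_atTop.eventually_ge_atTop M
  filter_upwards [h1, bas C1 1 hC1] with x h1 h2
  intro H hH
  obtain ⟨_, hL1, hcub, _, hH1, _⟩ := h2 H hH
  set L := Real.log x with hLdef
  set h := Real.log H with hhdef
  have hL0 : 0 < L := by linarith
  have hl0 : 0 ≤ Real.log L := Real.log_nonneg hL1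
  have hHD : Real.exp (((k + 1 : ℕ) : ℝ) * Real.log L) ≤ H ^ (Dd c4 x H) := by
    rw [Real.rpow_def_of_pos (by linarith)]
    refine Real.exp_le_exp.2 ?_
    unfold Dd
    rw [← hLdef, ← hhdef]
    have e1 : h * (c4 * (h / L) ^ 2) = c4 * (h ^ 3 / L ^ 2) := by
      field_simp
    rw [e1]
    have e2 : C1 ^ 3 * Real.log L ≤ h ^ 3 / L ^ 2 := by
      rw [le_div_iff₀ (by positivity)]
      calc C1 ^ 3 * Real.log L * L ^ 2 = C1 ^ 3 * (L ^ 2 * Real.log L) := by ring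
        _ ≤ h ^ 3 := hcub
    calc ((k + 1 : ℕ) : ℝ) * Real.log L = ((k : ℝ) + 1) * Real.log L := by push_cast; ring
      _ ≤ c4 * C1 ^ 3 * Real.log L := by gcongr
      _ = c4 * (C1 ^ 3 * Real.log L) := by ring
      _ ≤ c4 * (h ^ 3 / L ^ 2) := by gcongr
  rw [Real.exp_nat_mul, Real.exp_log hL0] at hHD
  refine le_trans ?_ hHD
  rw [pow_succ, mul_comm (L ^ k) L]
  exact mul_le_mul_of_nonneg_right h1 (by positivity)

end Pool.Agent.H49.VK
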