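import Mathlib

/-!
# [H49 VK PR] `k^3` primes between `N^(1/k)` and `32 N^(1/k)`, `N ≥ k^(12k)`

PROOF. `x = N^(1/k) ≥ k^12 ≥ 4096`, `n0 = ⌈x⌉₊ ≤ 2x`. Chebyshev: `θ(16 n0) - θ(n0) ≥ 8 n0`, and each prime in `(n0, 16 n0]`
contributes at most `log(16 n0) ≤ √n0`; so there are at least `8 √n0 ≥ k^3` of them.
-/

set_option autoImplicit false

namespace Pool.Agent.H49.VK

open Finset

/-- Chebyshev between `y` and `16 y` -/
theorem pr_cheb (y : ℝ) (hy : 4096 ≤ y) :
    8 * y ≤ Chebyshev.theta (16 * y) - Chebyshev.theta y := by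
  have h1 := Chebyshev.theta_ge' (x := 16 * y) (by linarith)
  have h2 := Chebyshev.theta_le_log4_mul_x (x := y) (by linarith)
  have hy0 : 0 < y := by linarith
  have h4 : Real.log 4 = 2 * Real.log 2 := by
    rw [show (4 : ℝ) = 2 ^ 2 by norm_num, Real.log_pow]
    push_cast
    ring
  have hl := Real.log_two_gt_d9
  have hu := Real.log_two_lt_d9
  set s := Real.sqrt y with hs
  have hs0 : 0 < s := Real.sqrt_pos.2 hy0
  have hss : s * s = y := Real.mul_self_sqrt hy0.le
  have hs64 : 64 ≤ s := by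
    rw [hs]
    apply Real.le_sqrt_of_sq_le
    norm_num
    exact hy
  have h16 : Real.sqrt (16 * y) = 4 * s := by
    rw [Real.sqrt_mul (by norm_num), ← hs]
    congr 1
    rw [show (16 : ℝ) = 4 ^ 2 by norm_num]
    exact Real.sqrt_sq (by norm_num)
  have hlog : Real.log (16 * y) ≤ 92 / 10 + s / 32 := by
    have e1 : 16 * y = (256 * (s / 64)) ^ 2 := by
      rw [← hss]
      ring
    have e2 : Real.log (16 * y) = 2 * (8 * Real.log 2 + Real.log (s / 64)) := by
      rw [e1, Real.log_pow, Real.log_mul (by norm_num) (by positivity),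
        show (256 : ℝ) = 2 ^ 8 by norm_num, Real.log_pow]
      push_cast
      ring
    have e3 : Real.log (s / 64) ≤ s / 64 - 1 := Real.log_le_sub_one_of_pos (by positivity)
    rw [e2]
    linarith
  have hlog0 : 0 ≤ Real.log (16 * y) := Real.log_nonneg (by linarith)
  have hlog2 : Real.log (16 * y + 2) ≤ 10 + s / 32 := by
    have e1 : Real.log (16 * y + 2) ≤ Real.log (2 * (16 * y)) :=
      Real.log_le_log (by linarith) (by linarith)
    rw [Real.log_mul (by norm_num) (by positivity)] at e1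
    linarith
  rw [h16] at h1
  rw [h4] at h2
  have h5 : 2 * (4 * s) * Real.log (16 * y) ≤ 2 * (4 * s) * (92 / 10 + s / 32) :=
    mul_le_mul_of_nonneg_left hlog (by positivity)
  have h6 : s ≤ y / 64 := by
    rw [le_div_iff₀ (by norm_num), ← hss]
    exact mul_le_mul_of_nonneg_left hs64 hs0.le
  have h7 : 2 * (4 * s) * (92 / 10 + s / 32) = 368 / 5 * s + y / 4 := by
    rw [← hss]
    ring
  have h8 : 0.6931471803 * y ≤ Real.log 2 * y := mul_le_mul_of_nonneg_right hl.le hy0.le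
  have h9 : (16 * y - 1) * Real.log 2 - 2 * Real.log 2 * y = 14 * (Real.log 2 * y) - Real.log 2 := by
    ring
  linarith

theorem primes (k N : ℕ) (hk : 2 ≤ k) (hN : k ^ (12 * k) ≤ N) :
    ∃ P : Finset ℕ, P.card = k ^ 3 ∧ ∀ p ∈ P, p.Prime ∧ k < p ∧ N ≤ p ^ k ∧
      (p : ℝ) ≤ 32 * (N : ℝ) ^ (1 / (k : ℝ)) := by
  have hk0 : (0:ℝ) < k := by exact_mod_cast (by omega : 0 < k)
  have hk2 : (2:ℝ) ≤ k := by exact_mod_cast hk
  set x : ℝ := (N : ℝ) ^ (1 / (k : ℝ)) with hx
  have hxk : x ^ k = N := by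
    rw [hx, ← Real.rpow_natCast, ← Real.rpow_mul (Nat.cast_nonneg N)]
    rw [one_div, inv_mul_cancel₀ hk0.ne', Real.rpow_one]
  have hx0 : 0 ≤ x := Real.rpow_nonneg (Nat.cast_nonneg N) _
  have hkx : (k : ℝ) ^ 12 ≤ x := by
    by_contra h
    push Not at h
    have h1 : x ^ k < ((k : ℝ) ^ 12) ^ k := pow_lt_pow_left₀ h hx0 (by omega)
    rw [hxk] at h1
    have h2 : ((k ^ (12 * k) : ℕ) : ℝ) ≤ N := by exact_mod_cast hN
    push_cast at h2
    rw [pow_mul] at h2
    linarith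
  have h4096 : (4096 : ℝ) ≤ (k : ℝ) ^ 12 := by
    calc (4096 : ℝ) = 2 ^ 12 := by norm_num
      _ ≤ (k : ℝ) ^ 12 := pow_le_pow_left₀ (by norm_num) hk2 12
  set n0 : ℕ := ⌈x⌉₊ with hn0
  have hxn : x ≤ n0 := Nat.le_ceil x
  have hnx : (n0 : ℝ) ≤ 2 * x := by
    have := Nat.ceil_lt_add_one hx0
    linarith
  have hk12 : (k : ℝ) ^ 12 ≤ n0 := hkx.trans hxn
  have hn4096 : (4096 : ℝ) ≤ n0 := h4096.trans hk12
  have hkn : k ≤ n0 := by
    have h1 : (k : ℝ) ≤ (k : ℝ) ^ 12 := by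
      calc (k : ℝ) = (k : ℝ) ^ 1 := (pow_one _).symm
        _ ≤ (k : ℝ) ^ 12 := pow_le_pow_right₀ (by linarith) (by norm_num)
    have : (k : ℝ) ≤ n0 := h1.trans hk12
    exact_mod_cast this
  have hNn : N ≤ n0 ^ k := by
    have h1 : x ^ k ≤ (n0 : ℝ) ^ k := pow_le_pow_left₀ hx0 hxn k
    rw [hxk] at h1
    exact_mod_cast h1
  -- the primes between `n0` and `16 n0`
  set S : Finset ℕ := (Ioc n0 (16 * n0)).filter Nat.Prime with hS
  have hcard : k ^ 3 ≤ S.card := by
    have h1 := pr_cheb (n0 : ℝ) hn4096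
    have h2 : Chebyshev.theta (16 * (n0 : ℝ)) - Chebyshev.theta (n0 : ℝ) = ∑ p ∈ S, Real.log p := by
      have e1 : (16 * (n0 : ℝ)) = ((16 * n0 : ℕ) : ℝ) := by push_cast; ring
      rw [e1, Chebyshev.theta, Chebyshev.theta, Nat.floor_natCast, Nat.floor_natCast, hS,
        sub_eq_iff_eq_add, ← Finset.sum_union]
      · apply Finset.sum_congr _ (fun _ _ => rfl)
        ext p
        simp only [mem_union, mem_filter, mem_Ioc]
        constructor
        · rintro ⟨⟨h3, h4⟩, h5⟩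
          rcases Nat.lt_or_ge n0 p with h | h
          · exact Or.inl ⟨⟨h, h4⟩, h5⟩
          · exact Or.inr ⟨⟨h3, h⟩, h5⟩
        · rintro (⟨⟨h3, h4⟩, h5⟩ | ⟨⟨h3, h4⟩, h5⟩)
          · exact ⟨⟨by omega, h4⟩, h5⟩
          · exact ⟨⟨h3, by omega⟩, h5⟩
      · rw [Finset.disjoint_left]
        intro p hp hq
        simp only [mem_filter, mem_Ioc] at hp hq
        omega
    have h3 : ∑ p ∈ S, Real.log p ≤ (S.card : ℝ) * Real.log (16 * (n0 : ℝ)) := by
      calc ∑ p ∈ S, Real.log p ≤ ∑ _p ∈ S, Real.log (16 * (n0 : ℝ)) := by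
            apply Finset.sum_le_sum
            intro p hp
            rw [hS, mem_filter, mem_Ioc] at hp
            apply Real.log_le_log
            · have : 0 < p := by omega
              exact_mod_cast this
            · exact_mod_cast hp.1.2
        _ = (S.card : ℝ) * Real.log (16 * (n0 : ℝ)) := by
            rw [Finset.sum_const, nsmul_eq_mul]
    set s := Real.sqrt (n0 : ℝ) with hs
    have hn0pos : (0 : ℝ) < n0 := by linarith
    have hs0 : 0 < s := Real.sqrt_pos.2 hn0pos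
    have hss : s * s = n0 := Real.mul_self_sqrt hn0pos.le
    have hs64 : 64 ≤ s := by
      rw [hs]
      apply Real.le_sqrt_of_sq_le
      norm_num
      exact_mod_cast hn4096
    have hlog : Real.log (16 * (n0 : ℝ)) ≤ s := by
      have e1 : 16 * (n0 : ℝ) = (256 * (s / 64)) ^ 2 := by
        rw [← hss]
        ring
      have e2 : Real.log (16 * (n0 : ℝ)) = 2 * (8 * Real.log 2 + Real.log (s / 64)) := by
        rw [e1, Real.log_pow, Real.log_mul (by norm_num) (by positivity),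
          show (256 : ℝ) = 2 ^ 8 by norm_num, Real.log_pow]
        push_cast
        ring
      have e3 : Real.log (s / 64) ≤ s / 64 - 1 := Real.log_le_sub_one_of_pos (by positivity)
      have hu := Real.log_two_lt_d9
      rw [e2]
      linarith
    have h5 : 8 * (s * s) ≤ (S.card : ℝ) * s := by
      rw [hss]
      calc 8 * (n0 : ℝ) ≤ ∑ p ∈ S, Real.log p := by rw [← h2]; exact h1
        _ ≤ (S.card : ℝ) * Real.log (16 * (n0 : ℝ)) := h3
        _ ≤ (S.card : ℝ) * s := mul_le_mul_of_nonneg_left hlog (Nat.cast_nonneg _)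
    have h6 : 8 * s ≤ (S.card : ℝ) := by
      have e1 : 8 * (s * s) = (8 * s) * s := by ring
      rw [e1] at h5
      exact le_of_mul_le_mul_right h5 hs0
    have h7 : (k : ℝ) ^ 6 ≤ s := by
      rw [hs]
      apply Real.le_sqrt_of_sq_le
      rw [← pow_mul]
      exact hk12
    have h8 : (k : ℝ) ^ 3 ≤ (k : ℝ) ^ 6 := pow_le_pow_right₀ (by linarith) (by norm_num)
    have h9 : (k : ℝ) ^ 3 ≤ (S.card : ℝ) := by linarith
    exact_mod_cast h9
  obtain ⟨P, hPS, hPc⟩ := exists_subset_card_eq hcard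
  refine ⟨P, hPc, ?_⟩
  intro p hp
  have h1 := hPS hp
  rw [hS, mem_filter, mem_Ioc] at h1
  obtain ⟨⟨h2, h3⟩, h4⟩ := h1
  refine ⟨h4, by omega, hNn.trans (Nat.pow_le_pow_left h2.le k), ?_⟩
  calc (p : ℝ) ≤ ((16 * n0 : ℕ) : ℝ) := by exact_mod_cast h3
    _ = 16 * (n0 : ℝ) := by push_cast; ring
    _ ≤ 16 * (2 * x) := by gcongr
    _ = 32 * x := by ring

end Pool.Agent.H49.VK
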