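import Pool.Agent.H43.VM.Recu
import Pool.Agent.H49.VK.Pr

/-!
# [H49 VK RECU] The recursive inequality with primes of size `N^(1/k)`

PROOF. As `Pool.Agent.H43.VM.recu`, with the primes of `Pr`.
-/

set_option autoImplicit false

namespace Pool.Agent.H49.VK

open Finset Pool.Agent.H43.VM

theorem recu (k t N : ℕ) (hk : 2 ≤ k) (ht : 1 ≤ t) (hN : k ^ (12 * k) ≤ N) (D lam : ℝ) (hD : 0 ≤ D)
    (hlam : 0 ≤ lam) (hJ : ∀ M : ℕ, 1 ≤ M → (J k t M : ℝ) ≤ D * (M : ℝ) ^ lam) :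
    (J k (t + k) N : ℝ) ≤ 2 * ((k : ℝ) ^ (t + k) * (N : ℝ) ^ (k - 1)) ^ 2 +
      2 * ((t + k : ℕ) : ℝ) ^ (2 * k) * ((k : ℝ) ^ 3 *
        ((32 * (N : ℝ) ^ (1 / (k : ℝ))) ^ (2 * t + k * (k - 1) / 2) *
          ((N : ℝ) ^ k * (k.factorial : ℝ) * (D * (2 * (N : ℝ) ^ (1 - 1 / (k : ℝ))) ^ lam)))) := by
  have hN1 : 1 ≤ N := le_trans (Nat.one_le_pow _ _ (by omega)) hN
  obtain ⟨P, hPc, hP⟩ := Pool.Agent.H49.VK.primes k N hk hN
  have h1 := good k t N (by omega) hN1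
  have h2 := prsel k t N hk P hPc.ge (fun p hp => (hP p hp).1) (fun p hp => (hP p hp).2.2.1)
  have hNpos : (0 : ℝ) < N := by exact_mod_cast hN1
  have hV : ∀ p ∈ P, (V k t N p : ℝ) ≤
      (32 * (N : ℝ) ^ (1 / (k : ℝ))) ^ (2 * t + k * (k - 1) / 2) *
          ((N : ℝ) ^ k * (k.factorial : ℝ) *
            (D * (2 * (N : ℝ) ^ (1 - 1 / (k : ℝ))) ^ lam)) := by
    intro p hp
    obtain ⟨p1, p2, p3, p4⟩ := hP p hp
    have h3 := v_le k t N p p1 (by omega) p2 p3 ht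
    have h4 : (V k t N p : ℝ) ≤ (p : ℝ) ^ (2 * t) * ((N : ℝ) ^ k *
        ((k.factorial : ℝ) * (p : ℝ) ^ (k * (k - 1) / 2)) * (J k t (N / p + 1) : ℝ)) := by
      exact_mod_cast h3
    have h5 : (J k t (N / p + 1) : ℝ) ≤ D * (2 * (N : ℝ) ^ (1 - 1 / (k : ℝ))) ^ lam := by
      refine (hJ (N / p + 1) (Nat.le_add_left 1 _)).trans ?_
      exact mul_le_mul_of_nonneg_left
        (Real.rpow_le_rpow (Nat.cast_nonneg _) (Pool.Agent.H43.VM.recu_div k N p hk hN1 p3) hlam) hD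
    have h6 : (p : ℝ) ^ (2 * t) * (p : ℝ) ^ (k * (k - 1) / 2) ≤
        (32 * (N : ℝ) ^ (1 / (k : ℝ))) ^ (2 * t + k * (k - 1) / 2) := by
      rw [← pow_add]
      exact pow_le_pow_left₀ (Nat.cast_nonneg _) p4 _
    have h7 : (0 : ℝ) ≤ (N : ℝ) ^ k * (k.factorial : ℝ) := by positivity
    calc (V k t N p : ℝ) ≤ (p : ℝ) ^ (2 * t) * ((N : ℝ) ^ k *
        ((k.factorial : ℝ) * (p : ℝ) ^ (k * (k - 1) / 2)) * (J k t (N / p + 1) : ℝ)) := h4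
      _ = ((p : ℝ) ^ (2 * t) * (p : ℝ) ^ (k * (k - 1) / 2)) *
          ((N : ℝ) ^ k * (k.factorial : ℝ) * (J k t (N / p + 1) : ℝ)) := by ring
      _ ≤ _ := by
          apply mul_le_mul h6 (mul_le_mul_of_nonneg_left h5 h7)
          · exact mul_nonneg h7 (Nat.cast_nonneg _)
          · positivity
  have h3 : (Q k t N : ℝ) ≤ (k : ℝ) ^ 3 *
      ((32 * (N : ℝ) ^ (1 / (k : ℝ))) ^ (2 * t + k * (k - 1) / 2) *
          ((N : ℝ) ^ k * (k.factorial : ℝ) *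
            (D * (2 * (N : ℝ) ^ (1 - 1 / (k : ℝ))) ^ lam))) := by
    have h4 : (Q k t N : ℝ) ≤ ∑ p ∈ P, (V k t N p : ℝ) := by exact_mod_cast h2
    refine h4.trans ((Finset.sum_le_sum hV).trans ?_)
    rw [Finset.sum_const, hPc, nsmul_eq_mul]
    push_cast
    exact le_rfl
  have h4 : (J k (t + k) N : ℝ) ≤ 2 * ((k : ℝ) ^ (t + k) * (N : ℝ) ^ (k - 1)) ^ 2 +
      2 * ((t + k : ℕ) : ℝ) ^ (2 * k) * (Q k t N : ℝ) := by
    exact_mod_cast h1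
  refine h4.trans ?_
  have h5 : (0 : ℝ) ≤ 2 * ((t + k : ℕ) : ℝ) ^ (2 * k) := by positivity
  have h6 := mul_le_mul_of_nonneg_left h3 h5
  linarith

end Pool.Agent.H49.VK
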